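import Pool.Agent.NNe.Chk
import Pool.Agent.NNe.Slots

set_option linter.all false
set_option maxRecDepth 1000000
namespace Pool.Agent.NNr.R11_3_7_8

open Pool.Agent.NNe

noncomputable def SI0_0 : Nat := (nat_lit 0x300c030080200802008010040100401004010040000000000000000000000)
noncomputable def SW0_0 : Nat := (nat_lit 0x10004001c01e00e006803000c01800a8050026012005802800a01700b00440120040018008002000)
noncomputable def RV0_0 : Nat := (nat_lit 0x8a0ef20c01108a01b08a03a30801118202510000c08a04308a06f08a05a30801718202c10001220400f18202f08a06220c02508a09c08a0ab08a0b720c000308000286000204000182000)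
noncomputable def CO0_0 : Nat := (nat_lit 0x297850290c60290c50255850255840255810255800251c5016ac50166450166440166410166400156820156810152c5012b06012b05012745011785011006011004011003011002011001)
noncomputable def Y0_0_0_1 : Nat := (nat_lit 0x10000000000000000000000000007000000000000020000000000000700000000000002000000000000df00000000000052000000000000c9000000000000080000000000000000000000000000000000000000c100000000000040000000000000c900000000000000000000000000db00000000000052)
noncomputable def Y0_0_2_3 : Nat := (nat_lit 0x7000000000000040000000000000000000000000000000000000000050000000000000400000000000007000000000000020000000000000700000000000000)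
noncomputable def C0_0 : Cd := (Cd.mk (nat_lit 25) (nat_lit 5) (nat_lit 320) SI0_0 SW0_0 RV0_0 CO0_0 (Sl.cons (Sd.mk (nat_lit 4) (nat_lit 4) (nat_lit 0) (nat_lit 9) (Sb.cons (nat_lit 4) (nat_lit 0) (nat_lit 6) (Sb.cons (nat_lit 8) (nat_lit 6) (nat_lit 3) Sb.nil)) (Bl.r Y0_0_0_1 (nat_lit 1) Bl.nil)) (Sl.cons (Sd.mk (nat_lit 5) (nat_lit 4) (nat_lit 9) (nat_lit 8) (Sb.cons (nat_lit 4) (nat_lit 0) (nat_lit 3) (Sb.cons (nat_lit 8) (nat_lit 3) (nat_lit 5) Sb.nil)) (Bl.c Y0_0_0_1 (nat_lit 18) (nat_lit 0) Bl.nil)) (Sl.cons (Sd.mk (nat_lit 9) (nat_lit 8) (nat_lit 17) (nat_lit 5) (Sb.cons (nat_lit 4) (nat_lit 0) (nat_lit 5) Sb.nil) (Bl.r Y0_0_2_3 (nat_lit 3) Bl.nil)) (Sl.cons (Sd.mk (nat_lit 10) (nat_lit 8) (nat_lit 22) (nat_lit 3) (Sb.cons (nat_lit 4) (nat_lit 0) (nat_lit 3) Sb.nil) (Bl.c Y0_0_2_3 (nat_lit 10) (nat_lit 2) Bl.nil)) Sl.nil)))))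
noncomputable def SI0_1 : Nat := (nat_lit 0x1405014050140501405014050140501404010040100401004010040100300c0300c0300c0300c0300802008020080200802008020080200401004010040100401004000000000000000000000000000)
noncomputable def SW0_1 : Nat := (nat_lit 0x1f80f807a03c01900a003e01e009804802200a00480ec062030017809c04c02500e804001003a01700b4058024011807001e00701c80e005602200d8068032018007001800a00401b80d806a02a010805c01a00c00180d0066029010005802a0140058008002000)
noncomputable def RV0_1 : Nat := (nat_lit 0x20c00c28600720400718200c08a0e508a0f020c01208a01c08a01320400a18201120c00e08a01708a05128601218202310000a08a03b18202610000d08a04408a04d08a03f08a07008a05b18202d10001320401018203008a06308a06b08a05e20c02608a09d08a0ac08a0b820c00128600120400118200108a0c308a00028600318200408a07920401418203508a0df08a0e908a08520401818203c08a08020c02008a09608a0a508a0b188a028a8600a98201408a0bca8600d982018900000)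
noncomputable def CO0_1 : Nat := (nat_lit 0x2a80602a80302a80202a80102a7450297850290c60290c50288850288820288810280c60280c50269c50265430265410265400255850255810255800251c50249c50241c5016ac50166450166410166400156820156810152c5014ac50142c5012b06012b05012745011785011006011003011002011001010b8501004501004301004100aa0500aa0200aa0100a7450097850092c5008a82008a810082c5002b06002b05002745001785001105001103001101000b85000143000141000140)
noncomputable def Y0_1_1_0 : Nat := (nat_lit 0x7db00000000000000000000000003c800000000000040000000000003c900000000000001000000000007db00000000000001000000000007db00000000000001000000000007db00000000000000000000000003c000000000000040000000000003c000000000000000000000000007d000000000000000)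
noncomputable def Y0_1_2_3 : Nat := (nat_lit 0x18700000000000000000000000001ff00000000000000000000000001ff00000000000000000000000001e300000000000000000000000001830000000000018300000000000000000000000000000000000000018300000000000183000000000001a300000000000000000000000001ff00000000000000000000000001ff000000000000300000000000000000000000000000000000000001a700000000000000)
noncomputable def Y0_1_4_5 : Nat := (nat_lit 0xff000000000000000000000000000000000000000000000000000000b100000000000000000000000000b500000000000014000000000017ff00000000000000000000000001b100000000000000000000000003b500000000000014000000000017ff00000000000000000000000017ff00000000000000000000000017ff00000000000000)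
noncomputable def C0_1 : Cd := (Cd.mk (nat_lit 64) (nat_lit 6) (nat_lit 546) SI0_1 SW0_1 RV0_1 CO0_1 (Sl.cons (Sd.mk (nat_lit 0) (nat_lit 0) (nat_lit 0) (nat_lit 11) (Sb.cons (nat_lit 0) (nat_lit 0) (nat_lit 4) (Sb.cons (nat_lit 4) (nat_lit 4) (nat_lit 4) (Sb.cons (nat_lit 8) (nat_lit 8) (nat_lit 3) Sb.nil))) (Bl.c Y0_1_1_0 (nat_lit 18) (nat_lit 1) Bl.nil)) (Sl.cons (Sd.mk (nat_lit 2) (nat_lit 0) (nat_lit 11) (nat_lit 9) (Sb.cons (nat_lit 0) (nat_lit 0) (nat_lit 3) (Sb.cons (nat_lit 4) (nat_lit 3) (nat_lit 2) (Sb.cons (nat_lit 8) (nat_lit 5) (nat_lit 4) Sb.nil))) (Bl.r Y0_1_1_0 (nat_lit 0) Bl.nil)) (Sl.cons (Sd.mk (nat_lit 4) (nat_lit 4) (nat_lit 20) (nat_lit 12) (Sb.cons (nat_lit 0) (nat_lit 0) (nat_lit 4) (Sb.cons (nat_lit 4) (nat_lit 4) (nat_lit 5) (Sb.cons (nat_lit 8) (nat_lit 9) (nat_lit 3) Sb.nil))) (Bl.r Y0_1_2_3 (nat_lit 3) Bl.nil)) (Sl.cons (Sd.mk (nat_lit 5) (nat_lit 4) (nat_lit 32) (nat_lit 9) (Sb.cons (nat_lit 0) (nat_lit 0) (nat_lit 2) (Sb.cons (nat_lit 4) (nat_lit 2) (nat_lit 3) (Sb.cons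 (nat_lit 8) (nat_lit 5) (nat_lit 4) Sb.nil))) (Bl.c Y0_1_2_3 (nat_lit 24) (nat_lit 2) Bl.nil)) (Sl.cons (Sd.mk (nat_lit 9) (nat_lit 8) (nat_lit 41) (nat_lit 10) (Sb.cons (nat_lit 0) (nat_lit 0) (nat_lit 2) (Sb.cons (nat_lit 4) (nat_lit 2) (nat_lit 4) (Sb.cons (nat_lit 8) (nat_lit 6) (nat_lit 4) Sb.nil))) (Bl.r Y0_1_4_5 (nat_lit 5) Bl.nil)) (Sl.cons (Sd.mk (nat_lit 10) (nat_lit 8) (nat_lit 51) (nat_lit 13) (Sb.cons (nat_lit 0) (nat_lit 0) (nat_lit 5) (Sb.cons (nat_lit 4) (nat_lit 5) (nat_lit 3) (Sb.cons (nat_lit 8) (nat_lit 8) (nat_lit 5) Sb.nil))) (Bl.c Y0_1_4_5 (nat_lit 20) (nat_lit 4) Bl.nil)) Sl.nil)))))))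
noncomputable def SI0_2 : Nat := (nat_lit 0x300c0300c0300c0300c03008020080200801004010040100401000000000000000)
noncomputable def SW0_2 : Nat := (nat_lit 0x68032018008803001600a002801002e010007802400601600a805001c00800380080260120068018002000)
noncomputable def RV0_2 : Nat := (nat_lit 0x20c00d20400818200d08a0e608a01420400b18201220c00f08a01808a05218202410000b08a04e08a04008a07a20401518203608a0e020401918203d08a08120c02108a09708a0a608a0bd982019900001)
noncomputable def CO0_2 : Nat := (nat_lit 0x2a80602a80202a80102a7450288850288820288810280c60280c50269c50265410265400249c50241c500aa0500aa0200aa0100a745008a82008a810082c5002b06002b05002745000b85000141000140)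
noncomputable def Y0_2_1_0 : Nat := (nat_lit 0x1f0000000000001e00000000000000000000000000000000000000001c000000000000000000000000001f0000000000000000000000000000000000000000000000000000001c000000000000000000000000001f0000000000001e)
noncomputable def Y0_2_2_3 : Nat := (nat_lit 0x75000000000000740000000000003100000000000011000000000000310000000000000000000000000075000000000000740000000000007500000000000074)
noncomputable def C0_2 : Cd := (Cd.mk (nat_lit 27) (nat_lit 7) (nat_lit 772) SI0_2 SW0_2 RV0_2 CO0_2 (Sl.cons (Sd.mk (nat_lit 0) (nat_lit 0) (nat_lit 0) (nat_lit 6) (Sb.cons (nat_lit 0) (nat_lit 0) (nat_lit 3) (Sb.cons (nat_lit 8) (nat_lit 3) (nat_lit 3) Sb.nil)) (Bl.c Y0_2_1_0 (nat_lit 14) (nat_lit 1) Bl.nil)) (Sl.cons (Sd.mk (nat_lit 2) (nat_lit 0) (nat_lit 6) (nat_lit 7) (Sb.cons (nat_lit 0) (nat_lit 0) (nat_lit 3) (Sb.cons (nat_lit 8) (nat_lit 3) (nat_lit 4) Sb.nil)) (Bl.r Y0_2_1_0 (nat_lit 0) Bl.nil)) (Sl.cons (Sd.mk (nat_lit 9) (nat_lit 8) (nat_lit 13) (nat_lit 5) (Sb.cons (nat_lit 0) (nat_lit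 0) (nat_lit 2) (Sb.cons (nat_lit 8) (nat_lit 2) (nat_lit 3) Sb.nil)) (Bl.r Y0_2_2_3 (nat_lit 3) Bl.nil)) (Sl.cons (Sd.mk (nat_lit 10) (nat_lit 8) (nat_lit 18) (nat_lit 9) (Sb.cons (nat_lit 0) (nat_lit 0) (nat_lit 5) (Sb.cons (nat_lit 8) (nat_lit 5) (nat_lit 4) Sb.nil)) (Bl.c Y0_2_2_3 (nat_lit 10) (nat_lit 2) Bl.nil)) Sl.nil)))))
noncomputable def SI0_3 : Nat := (nat_lit 0x300c0300c0200802008020040100401000000000000000)
noncomputable def SW0_3 : Nat := (nat_lit 0x4801c009002804401a008002000c02000c003800801e00b0050018002000)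
noncomputable def RV0_3 : Nat := (nat_lit 0x18203108a06408a06c08a05f08a0b918200208a0c408a00118200508a0ea08a08618203e08a08208a0b288a02998201508a0be98201a900002)
noncomputable def CO0_3 : Nat := (nat_lit 0x156810152c5014ac50142c5011785011001010b850100450100410097850092c5008a810082c5001785001105001101000b85000141000140)
noncomputable def Y0_3_1_0 : Nat := (nat_lit 0x3500000000000000000000000000350000000000000100000000000000000000000000000000000000003500000000000001)
noncomputable def Y0_3_2_3 : Nat := (nat_lit 0x7000000000000000000000000000000000000000000000000000000070000000000000000000000000007000000000000000000000000000000000000000000)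
noncomputable def C0_3 : Cd := (Cd.mk (nat_lit 19) (nat_lit 8) (nat_lit 53) SI0_3 SW0_3 RV0_3 CO0_3 (Sl.cons (Sd.mk (nat_lit 0) (nat_lit 0) (nat_lit 0) (nat_lit 6) (Sb.cons (nat_lit 0) (nat_lit 0) (nat_lit 3) (Sb.cons (nat_lit 4) (nat_lit 3) (nat_lit 3) Sb.nil)) (Bl.c Y0_3_1_0 (nat_lit 8) (nat_lit 1) Bl.nil)) (Sl.cons (Sd.mk (nat_lit 2) (nat_lit 0) (nat_lit 6) (nat_lit 4) (Sb.cons (nat_lit 0) (nat_lit 0) (nat_lit 2) (Sb.cons (nat_lit 4) (nat_lit 2) (nat_lit 2) Sb.nil)) (Bl.r Y0_3_1_0 (nat_lit 0) Bl.nil)) (Sl.cons (Sd.mk (nat_lit 4) (nat_lit 4) (nat_lit 10) (nat_lit 5) (Sb.cons (nat_lit 0) (nat_lit 0) (nat_lit 3) (Sb.cons (nat_lit 4) (nat_lit 3) (nat_lit 2) Sb.nil)) (Bl.r Y0_3_2_3 (nat_lit 3) Bl.nil)) (Sl.cons (Sd.mk (nat_lit 5) (nat_lit 4) (nat_lit 15) (nat_lit 4) (Sb.cons (nat_lit 0) (nat_lit 0) (nat_lit 2) (Sb.cons (nat_lit 4) (nat_lit 2) (nat_lit 2) Sb.nil)) (Bl.c Y0_3_2_3 (nat_lit 10) (nat_lit 2) Bl.nil)) Sl.nil)))))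
noncomputable def SI0_4 : Nat := (nat_lit 0x50140501404010040100400c0300c0300c0200802008010040100401000000000000000)
noncomputable def SW0_4 : Nat := (nat_lit 0x13007002800a012008803401200400e006002e008001806c02c007001006802a0100060004032014007802c00c000)
noncomputable def RV0_4 : Nat := (nat_lit 0x8a0f108a01d08a01508a01908a03c10000e08a04508a04f08a04108a07108a05c10001408a06d08a06008a09e08a0ad08a0c508a00208a07b08a0e108a0eb08a08708a08308a09808a0a708a0b388a02a08a0bf900003)
noncomputable def CO0_4 : Nat := (nat_lit 0x297850290c50288850280c50255850255800251c50249c50241c5016ac5016645016640014ac50142c5012b05012745010b8501004500aa0500a7450097850092c50082c5002b05002745001785001105000b85000140)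
noncomputable def Y0_4_1_0 : Nat := (nat_lit 0xe000000000000040000000000000e00000000000000000000000000320000000000000000000000000032000000000000000000000000003e00000000000004)
noncomputable def Y0_4_2_3 : Nat := (nat_lit 0x30000000000000000000000000003000000000000000000000000001b000000000000000000000000001b0000000000001b)
noncomputable def Y0_4_4_5 : Nat := (nat_lit 0x300000000000003000000000000000000000000000000000000000003000000000000030000000000000f000000000000070000000000000f00000000000007)
noncomputable def C0_4 : Cd := (Cd.mk (nat_lit 29) (nat_lit 9) (nat_lit 279) SI0_4 SW0_4 RV0_4 CO0_4 (Sl.cons (Sd.mk (nat_lit 0) (nat_lit 0) (nat_lit 0) (nat_lit 6) (Sb.cons (nat_lit 0) (nat_lit 0) (nat_lit 2) (Sb.cons (nat_lit 4) (nat_lit 2) (nat_lit 2) (Sb.cons (nat_lit 8) (nat_lit 4) (nat_lit 2) Sb.nil))) (Bl.c Y0_4_1_0 (nat_lit 10) (nat_lit 1) Bl.nil)) (Sl.cons (Sd.mk (nat_lit 2) (nat_lit 0) (nat_lit 6) (nat_lit 5) (Sb.cons (nat_lit 0) (nat_lit 0) (nat_lit 1) (Sb.cons (nat_lit 4) (nat_lit 1) (nat_lit 2) (Sb.cons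 (nat_lit 8) (nat_lit 3) (nat_lit 2) Sb.nil))) (Bl.r Y0_4_1_0 (nat_lit 0) Bl.nil)) (Sl.cons (Sd.mk (nat_lit 4) (nat_lit 4) (nat_lit 11) (nat_lit 4) (Sb.cons (nat_lit 0) (nat_lit 0) (nat_lit 2) (Sb.cons (nat_lit 8) (nat_lit 2) (nat_lit 2) Sb.nil)) (Bl.r Y0_4_2_3 (nat_lit 3) Bl.nil)) (Sl.cons (Sd.mk (nat_lit 5) (nat_lit 4) (nat_lit 15) (nat_lit 5) (Sb.cons (nat_lit 0) (nat_lit 0) (nat_lit 2) (Sb.cons (nat_lit 8) (nat_lit 2) (nat_lit 3) Sb.nil)) (Bl.c Y0_4_2_3 (nat_lit 8) (nat_lit 2) Bl.nil)) (Sl.cons (Sd.mk (nat_lit 9) (nat_lit 8) (nat_lit 20) (nat_lit 5) (Sb.cons (nat_lit 0) (nat_lit 0) (nat_lit 2) (Sb.cons (nat_lit 4) (nat_lit 2) (nat_lit 3) Sb.nil)) (Bl.r Y0_4_4_5 (nat_lit 5) Bl.nil)) (Sl.cons (Sd.mk (nat_lit 10) (nat_lit 8) (nat_lit 25) (nat_lit 4) (Sb.cons (nat_lit 0) (nat_lit 0) (nat_lit 2) (Sb.cons (nat_lit 4) (nat_lit 2) (nat_lit 2) Sb.nil)) (Bl.c Y0_4_4_5 (nat_lit 10) (nat_lit 4) Bl.nil)) Sl.nil)))))))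
noncomputable def SI0_5 : Nat := (nat_lit 0x20080200802008020080200802008020080200802008020080200802008020080200802008020080200801c0701c0701c0701c0701c0701c070180601806018060180601806018060180601806018060180601806018060180601806018060180601806018060180601806018060180601806018060180601806018060180501405014050140501405014050140501405014050140501405014050140501405014040100401004010040100401004010040100401004010040100401004010040100401004010040100300c0300c0300c0300c0300c0300c0300c0300c0300c0300c0300c0300c0300c0300c0300c0300802008020080200802008020080200802008020040100401004010040100401004010040100401004010040100401004010000000000000000000000000000000000000000)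
noncomputable def SW0_5 : Nat := (nat_lit 0x49024412007303b01c80e207003781d40e806e03681b00d605302b01480a205502a014009e04e02680dc06c035013809804a00f007003411e08e03501a409804b01a00cc048023006002c114089046822010e0860428230116084041820810208003281a00c8063031019c0cc061030017c0bc047025011808a0440218124090042020810007e03201880c003e02200f007403801b010808003401900c005c01400900403dc1ec0f506a835018e0c206083241900c606283101860c005f82f817a0bc01f00bc05c01600a805002600700303cc1dc0ed07a03c81e20f007783b01d60ea074834c1a40ba05b02d41760b905c02dc1680b305902c407a03c01d80e805a012002839c1c80e307403981ca0e207083801be0d106802bc1540a905802b815a0ac05582a014e0a605281fc0ba05c02d816802200406f03741b80cf06702901460a203f01f40b2010001800800200006d83681b20cd066028013609a050827c13c09d04e026413009704b01f00f607a03c816007202c06c035c1ac0cb065025412809303c01dc0ae03801580a8052028)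
noncomputable def RV0_5 : Nat := (nat_lit 0x8a09220c01c08a02708a0e808a08f08a07f30801c18203a10001820c01908a02408a01130800828600918200f08a0f408a08e20401718203b20c01808a02308a01230800920400918201008a08d20c01708a02208a09020c01a08a02508a08b20c01508a02008a07608a05608a06a08a04c08a06908a04b08a06808a04a08a07408a05408a06608a04820c02908a0a188a03788a02cb0800ca8600c98201720c00a08a00f20c00230800128600220400218200308a0b088a034a8600e98201c90000520c00708a00c08a00430800328600518200708a0bb88a03388a02db0800d98201d90000620c00608a00b08a00530800420400318200888a03220c00508a00a08a0c888a03588a02eb0800e98201e90000720c00808a00d08a00630800520400418200988a03020c00308a00808a0f720c03308a0db08a0f308a0e708a0de20c03008a0d820c01408a01f08a01030800728600818200e20c00b30800628600620400618200b08a0f220c01308a01e08a01630800a20400c18201320c01008a01a08a0d520c02d08a0cd08a05308a03e30801318202810001008a03930801028601018202108a0d308a0d108a0cf20c02b08a0cb08a04728601118202210000908a03830800f28600f18202008a03d30801218202710000f08a04608a05008a04208a0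d420c02c08a0cc08a07320401118203208a05830801520400e18202a08a0d208a0d008a0ce20c02a08a0ca08a06508a05930801618202b10001108a05730801420400d18202908a07208a05d30801818202e10001508a06e08a06108a0c720c02808a0a008a0ba08a0af08a0a420c01f08a09520c02708a09f08a0ae08a0c608a00330800228600418200608a0f520c03108a0d908a0ed08a0e308a0dc20c02e08a0d608a08908a07d30801b18203810001608a07730801920401218203308a07c30801a20401618203708a0e208a0ec08a08808a0c120c02308a09a08a0b508a0a908a0a220c01d08a09320c02208a09908a0a808a0b488a02bb0800ba8600b982016)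
noncomputable def CO0_5 : Nat := (nat_lit 0x3aac503a8c603a8c503a74503a6c503a64503a64403a64103a64003a4c603a4c503a44503a44403a44303a4410397850396c50396820396810394c60394c50394850394840394820394810392c50390c60390c5038ac50388c60388c50382c50380c60380c5036ac50369c50366c50365c50356c50355c50352c50351c5034ac50349c50342c50341c5032b06032b050329c50329050329040329030329010328c60328c50328060328040328030328020328010327450325c50325430325410325400324c60324c50324450324440324430324410317850315c50315850315840315810315800314c60314c50314850314840314820314810311c50310c60310c5030b850309c50309850309840309810309800308c60308c50308850308840308820308810301c50300c60300c502bb8502bb0602bb0502b78502b74502b34502b30602b30502b0c602b0c502b04502b04402b04302b04102b00602b00402b00302b00202b0010297850290c60290c50288850288840288820288810280c60280c5027b85027b06027b050279c50279850279840279810279800279050279040279030279010277850277450273450273060273050271c50271430271410271400271050271040271030271010255850255840255810255800251c50249c50241c5017b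85017b06017b05017ac5017a82017a81017a05017a04017a02017a010177850177450173450173060173050172c5017245017244017241017240017205017204017202017201016ac5016645016644016641016640014ac50142c5013b85013b06013b05013785013745013345013306013305012b06012b05012745010b8501004501004401004301004100bb8500bb0600bb0500b78500b74500b34500b30600b30500b2c500b24500b24400b24100b24000b20500b20400b20200b20100aa0500aa0400aa0200aa0100a7450097850092c5003b85003b06003b05003785003745003345003306003305002b06002b05002745001785001105001104001103001101)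
noncomputable def Y0_5_1_0 : Nat := (nat_lit 0xff000000000000080000000000007900000000000008000000000000ff00000000000079000000000000ff00000000000008000000000000ff00000000000071000000000000ff000000000000710000000000007900000000000008000000000000ff00000000000079000000000000ff00000000000084000000000000ff0000000000008c0000000000007800000000000008000000000000f900000000000000000000000000fb00000000000000000000000000ff0000000000008c00000000000078000000000000080000000000007900000000000001000000000000f9000000000000000000000000ff1f0000000000420c0000000000bd18000000000000080000000000bd190000000000bd010000000000ff190000000000bd000000000000ff1f00000000002d000000000000ffe000000000002d000000000000ffe000000000004280)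
noncomputable def Y0_5_2_3 : Nat := (nat_lit 0x7f000000000000670000000000006f000000000000630000000000007f000000000000670000000000007f000000000000670000000000007f000000000000670000000000007f000000000000670000000000006f000000000000630000000000007f000000000000670000005b3ddc830000000900c4030000007fffff83000000054045000000007fffff83000000054045000000007ffffffc000000054045200000007ffffffc00000025c26730000000591dc4600000000900c460000000591dcc64000000000000000000007f7fddec00000004400100)
noncomputable def Y0_5_4_5 : Nat := (nat_lit 0x1ff000000000000000000000000016500000000000061000000000001ff00000000000000000000000001ff00000000000030000000000001ff000000000000fb0000000000016100000000000061000000000001ef0000000000008a000000000001ef00000000000000000000000001ff000000000000eb00000000000161000000000000610000000000016100000000000000000000000001ef0000000000008a000000000001ff00000000000000000000000001ff00000000000000000000000001ff000000000000000000000000016500000000000061000000000001ff00000000000000000000000001ff000000000000300000000000016100000000000000000000000001ef00000000000000000000000001ef00000000000000000000000001ff000000000000eb00000000000161000000000000610000000000016100000000000000000000000001ef0000000000008a0000000ffffe3f000000042e343b0000000bd60021000000000400210000000ffe662f0000000008240a0000000ffeee2f0000000bd088000000000ffffe3f000000042230300000000fffffc0000000042230000000000fffffc000000004223000)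
noncomputable def Y0_5_6_6 : Nat := (nat_lit 0x10022004000000000000000000001002200400000000000000000000000000000000000000000000000000000000000000000000000000000000000000000000000000000000000000000000000000000000000000000000000000000000000000003b027604000000180230040000003f027e040000000900120000000010022004000000100220040000001002200400000000000000000000100220040000000000000000000010022004000000100220040000001002200400000000000000000000100220040000000000000000000000000000000000000000000000000000000000000000000000000000000000000000000000000000000000000000000000000000000000003b027604000000180230040000003f027e040000000900120000000010022004000000100220040000001002200400000000000000000000100220040000000000000000000010022004000000000000001000800000200400000000000000000000000000000000000000000000000000000000000000000000000000000000000000000000000000000000000000000000000000000000000000000000000000000000003901b000007604180080000030047f01f000007e0408001000001200100080000020041000800000200410008000002004000000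000000001000800000200410008000002004100080000020040000000000000000000000000000000000000000003901b000007604180080000030047f01f000007e04080010000012001000801002000000000000000000000000000000000000000000000000000000000000000000000000000000000000000000000000000000000000000000000000000000000000000000000000000000000000003901b03b020000180080180200007f01f03f02000008001009000000100080100200001000801002000010008010020000000000000000001000801002000010008010020000100080100200000000000000000000000000000000000000000000003901b03b020000180080180200007f01f03f02000008001009000000)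
noncomputable def Y0_5_7_7 : Nat := (nat_lit 0xaa000000000000000000000000000000000000000000000000000000aa00000000000000000000000000000000000000000000000000000a0a00000000000000000000000000000000000000000000000000000a0a00000000000000000000000000000000000000000000000000000aa000000000000000000000000000000000000000000000000000000aa000000000000000)
noncomputable def Y0_5_8_8 : Nat := (nat_lit 0x47edb0000000000120000000000000000000000000000000000000000000000000000000000000000000060db0000000000000000000000047edb00000000001200000000000060db000000000000000000000000204900000000000000000000000060db00000000000000000000000060db000000000020490000000000000000000000000000000000000000000000000000000000000000000000000000000000000000000000000000000000000000000000000000000000000000000000000000000000000000000000000000018180001b00000000000000000001c1f8001b0000000048000000000080800009000000808000090000018180001b00000000000000000000000000000000000000000000000000000000000000000000000000000000000000000000000000000000000000000000000000000000000000000000000000000000000000000000000000000000000000000001c1f8001b0000000048000000000000000000000000000000000000000000000000000000000000000001c1fc7ec00000000048120000000000000000000000000000000000000000000000000000000000000001c1fc7ec00000000048120000000000000000000000000000000000000000000000000000000000)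
noncomputable def C0_5 : Cd := (Cd.mk (nat_lit 248) (nat_lit 4) (nat_lit 4369) SI0_5 SW0_5 RV0_5 CO0_5 (Sl.cons (Sd.mk (nat_lit 0) (nat_lit 0) (nat_lit 0) (nat_lit 16) (Sb.cons (nat_lit 4) (nat_lit 0) (nat_lit 5) (Sb.cons (nat_lit 8) (nat_lit 5) (nat_lit 3) (Sb.cons (nat_lit 12) (nat_lit 8) (nat_lit 8) Sb.nil))) (Bl.c Y0_5_1_0 (nat_lit 48) (nat_lit 1) Bl.nil)) (Sl.cons (Sd.mk (nat_lit 2) (nat_lit 0) (nat_lit 16) (nat_lit 24) (Sb.cons (nat_lit 4) (nat_lit 0) (nat_lit 2) (Sb.cons (nat_lit 8) (nat_lit 2) (nat_lit 5) (Sb.cons (nat_lit 12) (nat_lit 7) (nat_lit 17) Sb.nil))) (Bl.r Y0_5_1_0 (nat_lit 0) Bl.nil)) (Sl.cons (Sd.mk (nat_lit 4) (nat_lit 4) (nat_lit 40) (nat_lit 16) (Sb.cons (nat_lit 0) (nat_lit 0) (nat_lit 5) (Sb.cons (nat_lit 8) (nat_lit 5) (nat_lit 3) (Sb.cons (nat_lit 12) (nat_lit 8) (nat_lit 8) Sb.nil))) (Bl.r Y0_5_2_3 (nat_lit 3) Bl.nil)) (Sl.cons (Sd.mk (nat_lit 5) (nat_lit 4) (nat_lit 56) (nat_lit 31) (Sb.cons (nat_lit 0) (nat_lit 0) (nat_lit 2) (Sb.cons (nat_lit 8) (nat_lit 2) (nat_lit 5)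 (Sb.cons (nat_lit 12) (nat_lit 7) (nat_lit 24) Sb.nil))) (Bl.c Y0_5_2_3 (nat_lit 32) (nat_lit 2) Bl.nil)) (Sl.cons (Sd.mk (nat_lit 9) (nat_lit 8) (nat_lit 87) (nat_lit 32) (Sb.cons (nat_lit 0) (nat_lit 0) (nat_lit 2) (Sb.cons (nat_lit 4) (nat_lit 2) (nat_lit 5) (Sb.cons (nat_lit 12) (nat_lit 7) (nat_lit 25) Sb.nil))) (Bl.r Y0_5_4_5 (nat_lit 5) Bl.nil)) (Sl.cons (Sd.mk (nat_lit 10) (nat_lit 8) (nat_lit 119) (nat_lit 28) (Sb.cons (nat_lit 0) (nat_lit 0) (nat_lit 6) (Sb.cons (nat_lit 4) (nat_lit 6) (nat_lit 3) (Sb.cons (nat_lit 12) (nat_lit 9) (nat_lit 19) Sb.nil))) (Bl.c Y0_5_4_5 (nat_lit 64) (nat_lit 4) Bl.nil)) (Sl.cons (Sd.mk (nat_lit 12) (nat_lit 12) (nat_lit 147) (nat_lit 55) (Sb.cons (nat_lit 0) (nat_lit 0) (nat_lit 15) (Sb.cons (nat_lit 4) (nat_lit 15) (nat_lit 15) (Sb.cons (nat_lit 8) (nat_lit 30) (nat_lit 25) Sb.nil))) (Bl.r Y0_5_6_6 (nat_lit 6) (Bl.c Y0_5_6_6 (nat_lit 110) (nat_lit 6) Bl.nil))) (Sl.cons (Sd.mk (nat_lit 13) (nat_lit 12) (nat_lit 202) (nat_lit 12) (Sb.cons (nat_lit 0) (nat_lit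 0) (nat_lit 4) (Sb.cons (nat_lit 4) (nat_lit 4) (nat_lit 4) (Sb.cons (nat_lit 8) (nat_lit 8) (nat_lit 4) Sb.nil))) (Bl.r Y0_5_7_7 (nat_lit 7) (Bl.c Y0_5_7_7 (nat_lit 24) (nat_lit 7) Bl.nil))) (Sl.cons (Sd.mk (nat_lit 14) (nat_lit 12) (nat_lit 214) (nat_lit 34) (Sb.cons (nat_lit 0) (nat_lit 0) (nat_lit 6) (Sb.cons (nat_lit 4) (nat_lit 6) (nat_lit 13) (Sb.cons (nat_lit 8) (nat_lit 19) (nat_lit 15) Sb.nil))) (Bl.r Y0_5_8_8 (nat_lit 8) (Bl.c Y0_5_8_8 (nat_lit 68) (nat_lit 8) Bl.nil))) Sl.nil))))))))))
noncomputable def SI0_6 : Nat := (nat_lit 0x1004010040100400c0300c03008020080200802008020080200802008010040100401004010040100401004010040100401004000000000000000000000000000)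
noncomputable def SW0_6 : Nat := (nat_lit 0xe006c03400a00480200320180038018028017009804802201600a804001e00e002801000603301900c405a02c0140090046029013809804a022010808001a00c00100c005e02e01580a803e01e00e802c002000)
noncomputable def RV0_6 : Nat := (nat_lit 0x8a09120c01b08a02608a08c20c01608a02108a07508a05508a06708a04908a0c988a03688a02f98201f90000820c00908a00e08a00720400518200a88a03120c00408a00908a0f620c03208a0da08a0ee08a0e408a0dd20c02f08a0d708a08a08a07e18203910001708a07820401318203420401a18203f08a08408a0c220c02408a09b08a0b608a0aa08a0a320c01e08a09408a0c098201b900004)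
noncomputable def CO0_6 : Nat := (nat_lit 0x38ac50388c60388c50382c50380c60380c5034ac50349c50342c50341c5030b850309c50309850309810309800308c60308c50308850308820308810301c50300c60300c500bb8500bb0600bb0500b78500b74500b34500b30600b30500b2c500b24500b24100b24000b20500b20200b201008a82008a810082c5003b85003b06003b05003785003745003345003306003305000b85000141000140)
noncomputable def Y0_6_1_0 : Nat := (nat_lit 0x700000000000000000000000000000000000000000000000000000007000000000000000000000000000700000000000000000000000000070000000000000000000000000007000000000000000000000000000000000000000000000000000000070000000000000000000000000007000000000000060000000000000700000000000006000000000000040000000000000000000000000005000000000000010000000000000700000000000006000000000000000000000000000000000000000004000000000000000000000000000000000000000000000000000005ec00000000000000000000000005ef000000000005ee)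
noncomputable def Y0_6_2_2 : Nat := (nat_lit 0x804000000000000000000000000000000000000000000000000000000000000000000000000000000000000000000000000000000000000000000000000000000000000000000000000000000000000000000001f0400000000000c040000000000080400000000000804000000000000000000000000000000000000000804000000000000000000000000000000000000000000000000000000000000000000000000000000001f0400000000000c04)
noncomputable def Y0_6_3_3 : Nat := (nat_lit 0xa0000000000000a00000000000000000000000000000000000000000a0000000000000a)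
noncomputable def Y0_6_4_4 : Nat := (nat_lit 0x90000000000000900000000000000000000000000000000000000000000000000000000000000000000090000000000000900000000000000000000000000000000000000000000000000000000)
noncomputable def C0_6 : Cd := (Cd.mk (nat_lit 52) (nat_lit 7) (nat_lit 4102) SI0_6 SW0_6 RV0_6 CO0_6 (Sl.cons (Sd.mk (nat_lit 0) (nat_lit 0) (nat_lit 0) (nat_lit 11) (Sb.cons (nat_lit 0) (nat_lit 0) (nat_lit 3) (Sb.cons (nat_lit 12) (nat_lit 3) (nat_lit 8) Sb.nil)) (Bl.c Y0_6_1_0 (nat_lit 36) (nat_lit 1) Bl.nil)) (Sl.cons (Sd.mk (nat_lit 2) (nat_lit 0) (nat_lit 11) (nat_lit 18) (Sb.cons (nat_lit 0) (nat_lit 0) (nat_lit 3) (Sb.cons (nat_lit 12) (nat_lit 3) (nat_lit 15) Sb.nil)) (Bl.r Y0_6_1_0 (nat_lit 0) Bl.nil)) (Sl.cons (Sd.mk (nat_lit 12) (nat_lit 12) (nat_lit 29) (nat_lit 13) (Sb.cons (nat_lit 0) (nat_lit 0) (nat_lit 13) Sb.nil) (Bl.r Y0_6_2_2 (nat_lit 2) (Bl.c Y0_6_2_2 (nat_lit 26) (nat_lit 2) Bl.nil))) (Sl.cons (Sd.mk (nat_lit 13) (nat_lit 12) (nat_lit 42) (nat_lit 4) (Sb.cons (nat_lit 0) (nat_lit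 0) (nat_lit 4) Sb.nil) (Bl.r Y0_6_3_3 (nat_lit 3) (Bl.c Y0_6_3_3 (nat_lit 8) (nat_lit 3) Bl.nil))) (Sl.cons (Sd.mk (nat_lit 14) (nat_lit 12) (nat_lit 46) (nat_lit 6) (Sb.cons (nat_lit 0) (nat_lit 0) (nat_lit 6) Sb.nil) (Bl.r Y0_6_4_4 (nat_lit 4) (Bl.c Y0_6_4_4 (nat_lit 12) (nat_lit 4) Bl.nil))) Sl.nil))))))
noncomputable def CL0 : Cl := (Cl.cons C0_0 (Cl.cons C0_1 (Cl.cons C0_2 (Cl.cons C0_3 (Cl.cons C0_4 (Cl.cons C0_5 (Cl.cons C0_6 Cl.nil)))))))
noncomputable def ZL0_0 : Zl := (Zl.cons (nat_lit 0) (nat_lit 0) (nat_lit 9) (Zl.cons (nat_lit 20) (nat_lit 9) (nat_lit 12) (Zl.cons (nat_lit 0) (nat_lit 0) (nat_lit 0) (Zl.cons (nat_lit 10) (nat_lit 21) (nat_lit 5) (Zl.cons (nat_lit 11) (nat_lit 26) (nat_lit 4) (Zl.cons (nat_lit 40) (nat_lit 30) (nat_lit 16) (Zl.cons (nat_lit 0) (nat_lit 0) (nat_lit 0) Zl.nil)))))))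
noncomputable def ZZ0 : ZZ := (ZZ.cons ZL0_0 ZZ.nil)
noncomputable def SI1_0 : Nat := (nat_lit 0x80200801004010040000000)
noncomputable def SW1_0 : Nat := (nat_lit 0xc00500200240100070018008002000)
noncomputable def RV1_0 : Nat := (nat_lit 0x8a02818200a10000408a03418200b10000718200c20c000286000182000)
noncomputable def CO1_0 : Nat := (nat_lit 0x25585025581025580016645016641016640015681011006011003011001)
noncomputable def Y1_0_0_1 : Nat := (nat_lit 0x4000000000004000000000001a000000)
noncomputable def C1_0 : Cd := (Cd.mk (nat_lit 10) (nat_lit 5) (nat_lit 320) SI1_0 SW1_0 RV1_0 CO1_0 (Sl.cons (Sd.mk (nat_lit 4) (nat_lit 4) (nat_lit 0) (nat_lit 3) (Sb.cons (nat_lit 4) (nat_lit 0) (nat_lit 3) Sb.nil) (Bl.r Y1_0_0_1 (nat_lit 1) Bl.nil)) (Sl.cons (Sd.mk (nat_lit 5) (nat_lit 4) (nat_lit 3) (nat_lit 4) (Sb.cons (nat_lit 4) (nat_lit 0) (nat_lit 1) (Sb.cons (nat_lit 8) (nat_lit 1) (nat_lit 3) Sb.nil)) (Bl.c Y1_0_0_1 (nat_lit 6) (nat_lit 0) Bl.nil)) (Sl.cons (Sd.mk (nat_lit 9) (nat_lit 8) (nat_lit 7) (nat_lit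 3) (Sb.cons (nat_lit 4) (nat_lit 0) (nat_lit 3) Sb.nil) Bl.nil) Sl.nil))))
noncomputable def SI1_1 : Nat := (nat_lit 0x14040100300c0300802008010040100000)
noncomputable def SW1_1 : Nat := (nat_lit 0x800c005002c012003003801800200d004000800a000)
noncomputable def RV1_1 : Nat := (nat_lit 0x18200410000310000510000820400708a03920c00120400008a00018200d08a06a20400c88a01a900000)
noncomputable def CO1_1 : Nat := (nat_lit 0x28881026540025580016640015682014ac501100601100201004500aa01009785008a82001105000140)
noncomputable def Y1_1_1_0 : Nat := (nat_lit 0x20000000000008000000000004000000)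
noncomputable def Y1_1_2_3 : Nat := (nat_lit 0x2000000000000800000000000c000000)
noncomputable def Y1_1_4_5 : Nat := (nat_lit 0x8000000000002000000)
noncomputable def C1_1 : Cd := (Cd.mk (nat_lit 14) (nat_lit 6) (nat_lit 546) SI1_1 SW1_1 RV1_1 CO1_1 (Sl.cons (Sd.mk (nat_lit 0) (nat_lit 0) (nat_lit 0) (nat_lit 2) (Sb.cons (nat_lit 0) (nat_lit 0) (nat_lit 1) (Sb.cons (nat_lit 4) (nat_lit 1) (nat_lit 1) Sb.nil)) (Bl.c Y1_1_1_0 (nat_lit 6) (nat_lit 1) Bl.nil)) (Sl.cons (Sd.mk (nat_lit 2) (nat_lit 0) (nat_lit 2) (nat_lit 3) (Sb.cons (nat_lit 0) (nat_lit 0) (nat_lit 1) (Sb.cons (nat_lit 4) (nat_lit 1) (nat_lit 1) (Sb.cons (nat_lit 8) (nat_lit 2) (nat_lit 1) Sb.nil))) (Bl.r Y1_1_1_0 (nat_lit 0) Bl.nil)) (Sl.cons (Sd.mk (nat_lit 4) (nat_lit 4) (nat_lit 5) (nat_lit 3) (Sb.cons (nat_lit 0) (nat_lit 0) (nat_lit 1) (Sb.cons (nat_lit 4) (nat_lit 1) (nat_lit 2) Sb.nil)) (Bl.r Y1_1_2_3 (nat_lit 3) Bl.nil)) (Sl.cons (Sd.mk (nat_lit 5) (nat_lit 4) (nat_lit 8) (nat_lit 3) (Sb.cons (nat_lit 0) (nat_lit 0) (nat_lit 1)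 (Sb.cons (nat_lit 4) (nat_lit 1) (nat_lit 1) (Sb.cons (nat_lit 8) (nat_lit 2) (nat_lit 1) Sb.nil))) (Bl.c Y1_1_2_3 (nat_lit 6) (nat_lit 2) Bl.nil)) (Sl.cons (Sd.mk (nat_lit 9) (nat_lit 8) (nat_lit 11) (nat_lit 2) (Sb.cons (nat_lit 4) (nat_lit 0) (nat_lit 1) (Sb.cons (nat_lit 8) (nat_lit 1) (nat_lit 1) Sb.nil)) (Bl.r Y1_1_4_5 (nat_lit 5) Bl.nil)) (Sl.cons (Sd.mk (nat_lit 10) (nat_lit 8) (nat_lit 13) (nat_lit 1) (Sb.cons (nat_lit 0) (nat_lit 0) (nat_lit 1) Sb.nil) (Bl.c Y1_1_4_5 (nat_lit 4) (nat_lit 4) Bl.nil)) Sl.nil)))))))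
noncomputable def SI1_2 : Nat := (nat_lit 0x300c0300c0200802004010000000000)
noncomputable def SW1_2 : Nat := (nat_lit 0xc004001400600b00380080140010048018008000)
noncomputable def RV1_2 : Nat := (nat_lit 0x18200208a06908a00f08a01208a03018200908a02b08a03d08a04208a04d08a05608a05c982006)
noncomputable def CO1_2 : Nat := (nat_lit 0x2a80102a7450288850280c50269c50265410241c500aa050082c5002b05002745000b85000141)
noncomputable def Y1_2_1_0 : Nat := (nat_lit 0x7800003c00001e00000f)
noncomputable def Y1_2_2_3 : Nat := (nat_lit 0x1c000006000001800000c00001c000006)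
noncomputable def C1_2 : Cd := (Cd.mk (nat_lit 13) (nat_lit 7) (nat_lit 772) SI1_2 SW1_2 RV1_2 CO1_2 (Sl.cons (Sd.mk (nat_lit 0) (nat_lit 0) (nat_lit 0) (nat_lit 4) (Sb.cons (nat_lit 0) (nat_lit 0) (nat_lit 2) (Sb.cons (nat_lit 8) (nat_lit 2) (nat_lit 2) Sb.nil)) (Bl.c Y1_2_1_0 (nat_lit 4) (nat_lit 1) Bl.nil)) (Sl.cons (Sd.mk (nat_lit 2) (nat_lit 0) (nat_lit 4) (nat_lit 2) (Sb.cons (nat_lit 0) (nat_lit 0) (nat_lit 1) (Sb.cons (nat_lit 8) (nat_lit 1) (nat_lit 1) Sb.nil)) (Bl.r Y1_2_1_0 (nat_lit 0) Bl.nil)) (Sl.cons (Sd.mk (nat_lit 9) (nat_lit 8) (nat_lit 6) (nat_lit 3) (Sb.cons (nat_lit 0) (nat_lit 0) (nat_lit 1) (Sb.cons (nat_lit 8) (nat_lit 1) (nat_lit 2) Sb.nil)) (Bl.r Y1_2_2_3 (nat_lit 3) Bl.nil)) (Sl.cons (Sd.mk (nat_lit 10) (nat_lit 8) (nat_lit 9) (nat_lit 4) (Sb.cons (nat_lit 0) (nat_lit 0) (nat_lit 2) (Sb.cons (nat_lit 8) (nat_lit 2) (nat_lit 2) Sb.nil)) (Bl.c Y1_2_2_3 (nat_lit 6) (nat_lit 2) Bl.nil)) Sl.nil)))))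
noncomputable def SI1_3 : Nat := (nat_lit 0)
noncomputable def SW1_3 : Nat := (nat_lit 0)
noncomputable def RV1_3 : Nat := (nat_lit 0x900001)
noncomputable def CO1_3 : Nat := (nat_lit 0x140)
noncomputable def C1_3 : Cd := (Cd.mk (nat_lit 1) (nat_lit 8) (nat_lit 53) SI1_3 SW1_3 RV1_3 CO1_3 (Sl.cons (Sd.mk (nat_lit 0) (nat_lit 0) (nat_lit 0) (nat_lit 1) (Sb.cons (nat_lit 0) (nat_lit 0) (nat_lit 1) Sb.nil) Bl.nil) Sl.nil))
noncomputable def SI1_4 : Nat := (nat_lit 0x140400c0200400)
noncomputable def SW1_4 : Nat := (nat_lit 0x2003002000000a002)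
noncomputable def RV1_4 : Nat := (nat_lit 0x8a01008a02908a03508a00108a03e88a01b)
noncomputable def CO1_4 : Nat := (nat_lit 0x2888502558501664501004500aa05001105)
noncomputable def Y1_4_1_0 : Nat := (nat_lit 0x2000000)
noncomputable def Y1_4_2_3 : Nat := (nat_lit 0x2000000)
noncomputable def Y1_4_4_5 : Nat := (nat_lit 0x2000000)
noncomputable def C1_4 : Cd := (Cd.mk (nat_lit 6) (nat_lit 9) (nat_lit 279) SI1_4 SW1_4 RV1_4 CO1_4 (Sl.cons (Sd.mk (nat_lit 0) (nat_lit 0) (nat_lit 0) (nat_lit 1) (Sb.cons (nat_lit 4) (nat_lit 0) (nat_lit 1) Sb.nil) (Bl.c Y1_4_1_0 (nat_lit 2) (nat_lit 1) Bl.nil)) (Sl.cons (Sd.mk (nat_lit 2) (nat_lit 0) (nat_lit 1) (nat_lit 1) (Sb.cons (nat_lit 8) (nat_lit 0) (nat_lit 1) Sb.nil) (Bl.r Y1_4_1_0 (nat_lit 0) Bl.nil)) (Sl.cons (Sd.mk (nat_lit 4) (nat_lit 4) (nat_lit 2) (nat_lit 1) (Sb.cons (nat_lit 0) (nat_lit 0) (nat_lit 1) Sb.nil) (Bl.r Y1_4_2_3 (nat_lit 3) Bl.nil)) (Sl.cons (Sd.mk (nat_lit 5) (nat_lit 4) (nat_lit 3) (nat_lit 1) (Sb.cons (nat_lit 8) (nat_lit 0) (nat_lit 1) Sb.nil)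 (Bl.c Y1_4_2_3 (nat_lit 2) (nat_lit 2) Bl.nil)) (Sl.cons (Sd.mk (nat_lit 9) (nat_lit 8) (nat_lit 4) (nat_lit 1) (Sb.cons (nat_lit 4) (nat_lit 0) (nat_lit 1) Sb.nil) (Bl.r Y1_4_4_5 (nat_lit 5) Bl.nil)) (Sl.cons (Sd.mk (nat_lit 10) (nat_lit 8) (nat_lit 5) (nat_lit 1) (Sb.cons (nat_lit 0) (nat_lit 0) (nat_lit 1) Sb.nil) (Bl.c Y1_4_4_5 (nat_lit 2) (nat_lit 4) Bl.nil)) Sl.nil)))))))
noncomputable def SI1_5 : Nat := (nat_lit 0x1c0701c0701c0701c0701c0701c070180601806018060180601806018060180601806018060180601806018060140501405014050140501405014050140501404010040100401004010040100300c0300c0300c0300c0300c0300802008020080200802008020080200401004010040100401004010040100401000000000000000000000000000000)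
noncomputable def SW1_5 : Nat := (nat_lit 0x9204801d00e406002f0128090032018005802808e044023011408604201c00dc05a02e01600ac046022010805c02801600a804c024009004001c0da06c030817c0bc06002e817004001f008804001e00600281ac0d405b02d00a805202800f003800806903401600b205702b00d806a034006800c0ce06602a81500a604102000cc01800200080000ca064029014009e051027013407e03e01e80c804e01d031818809804b02500f0076031013007003601a)
noncomputable def RV1_5 : Nat := (nat_lit 0x8a04908a01908a00d18200320400b08a00e08a04708a01708a04808a01808a04508a01588a02588a01d20c00808a00b20c00220400120c00608a00388a01e20c00508a00420400288a02320c00408a00988a02488a01f20c00708a00a08a00520400388a02120c00308a00708a06d08a06508a06720c01308a06308a00c20c00920400420c00b08a01408a01130800120400520c00a08a01308a02718200820c01108a02608a02a30800310000608a02d08a02f08a02c20400808a03220c01008a03308a03120400608a03630800410000908a03a08a03708a06108a05208a05520c00d08a04c20c00f08a05108a05908a06008a00230800018200108a06c08a06408a06620c01208a06208a04008a03b20400908a03f30800520400a08a06808a06b08a04408a05e08a04f08a05320c00c08a04a20c00e08a04e08a05708a05a88a01cb08002982005)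
noncomputable def CO1_5 : Nat := (nat_lit 0x3aac503a8c503a44503a4410396820394850392c50390c5038ac50388c50382c50380c50329c50329050328c60328c50328060328020324c60324450315850314c60314850314820311c50310c60310c50309c50309850308c60308c50308850308820301c50300c60300c502bb8502bb0502b34502b30602b30502b04502b00602b0020290c60290c50288850288840288820280c60280c50279050279010273060271050255850255840255800251c50249c50241c5017a82017a05017306017245017205017202016645016644016640014ac50142c5013b85013b05013345013306013305012b06012b05012745010b8501004501004401004100bb8500bb0500b34500b30600b30500b24500b20500b20200aa0500aa0400aa0200a7450097850092c5003b85003b05003345003306003305002b06002b05002745001785001105001104001101)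
noncomputable def Y1_5_1_0 : Nat := (nat_lit 0x2000000000007a00000000001c80000a000000800000400001e800001000008c000046000023000010000000200000000008300004180000080000000007408000800000d000000000003400000800000280000100)
noncomputable def Y1_5_2_3 : Nat := (nat_lit 0xb800000000002e00000000000b800004000002600001000000b80000400005860000030003700000000000dc00000800003780000040000ff00000900001680000240000840000000)
noncomputable def Y1_5_4_5 : Nat := (nat_lit 0x3b800000000008c00000000001880000400000ee0000400005cf800285c000022000000003a0000000000016300000100005800000000001600000000)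
noncomputable def Y1_5_6_6 : Nat := (nat_lit 0x44c2000020001010000000000048200000000012080000000044c2002000000120800010400000000000018003080000004000820000001000208000000000000000000180030800018420004000002000000000000000000000000001811000400000204000100000100100000080040040000000000000000000006044001022000810000000000)
noncomputable def Y1_5_7_7 : Nat := (nat_lit 0x2000000000000000000000000000000000000000000000000202800000000000000000000018000000000000000000000001a000000000000000000000001a00000000000000000000)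
noncomputable def C1_5 : Cd := (Cd.mk (nat_lit 110) (nat_lit 4) (nat_lit 4369) SI1_5 SW1_5 RV1_5 CO1_5 (Sl.cons (Sd.mk (nat_lit 0) (nat_lit 0) (nat_lit 0) (nat_lit 12) (Sb.cons (nat_lit 4) (nat_lit 0) (nat_lit 4) (Sb.cons (nat_lit 8) (nat_lit 4) (nat_lit 3) (Sb.cons (nat_lit 12) (nat_lit 7) (nat_lit 5) Sb.nil))) (Bl.c Y1_5_1_0 (nat_lit 28) (nat_lit 1) Bl.nil)) (Sl.cons (Sd.mk (nat_lit 2) (nat_lit 0) (nat_lit 12) (nat_lit 14) (Sb.cons (nat_lit 4) (nat_lit 0) (nat_lit 2) (Sb.cons (nat_lit 8) (nat_lit 2) (nat_lit 4) (Sb.cons (nat_lit 12) (nat_lit 6) (nat_lit 8) Sb.nil))) (Bl.r Y1_5_1_0 (nat_lit 0) Bl.nil)) (Sl.cons (Sd.mk (nat_lit 4) (nat_lit 4) (nat_lit 26) (nat_lit 12) (Sb.cons (nat_lit 0) (nat_lit 0) (nat_lit 4) (Sb.cons (nat_lit 8) (nat_lit 4) (nat_lit 3) (Sb.cons (nat_lit 12) (nat_lit 7) (nat_lit 5) Sb.nil))) (Bl.r Y1_5_2_3 (nat_lit 3) Bl.nil)) (Sl.cons (Sd.mk (nat_lit 5) (nat_lit 4) (nat_lit 38) (nat_lit 11) (Sb.cons (nat_lit 0) (nat_lit 0) (nat_lit 2) (Sb.cons (nat_lit 8) (nat_lit 2) (nat_lit 3)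 (Sb.cons (nat_lit 12) (nat_lit 5) (nat_lit 6) Sb.nil))) (Bl.c Y1_5_2_3 (nat_lit 24) (nat_lit 2) Bl.nil)) (Sl.cons (Sd.mk (nat_lit 9) (nat_lit 8) (nat_lit 49) (nat_lit 10) (Sb.cons (nat_lit 0) (nat_lit 0) (nat_lit 2) (Sb.cons (nat_lit 4) (nat_lit 2) (nat_lit 4) (Sb.cons (nat_lit 12) (nat_lit 6) (nat_lit 4) Sb.nil))) (Bl.r Y1_5_4_5 (nat_lit 5) Bl.nil)) (Sl.cons (Sd.mk (nat_lit 10) (nat_lit 8) (nat_lit 59) (nat_lit 15) (Sb.cons (nat_lit 0) (nat_lit 0) (nat_lit 5) (Sb.cons (nat_lit 4) (nat_lit 5) (nat_lit 2) (Sb.cons (nat_lit 12) (nat_lit 7) (nat_lit 8) Sb.nil))) (Bl.c Y1_5_4_5 (nat_lit 20) (nat_lit 4) Bl.nil)) (Sl.cons (Sd.mk (nat_lit 12) (nat_lit 12) (nat_lit 74) (nat_lit 24) (Sb.cons (nat_lit 0) (nat_lit 0) (nat_lit 9) (Sb.cons (nat_lit 4) (nat_lit 9) (nat_lit 7) (Sb.cons (nat_lit 8) (nat_lit 16) (nat_lit 8) Sb.nil))) (Bl.r Y1_5_6_6 (nat_lit 6) (Bl.c Y1_5_6_6 (nat_lit 48) (nat_lit 6) Bl.nil))) (Sl.cons (Sd.mk (nat_lit 14) (nat_lit 12) (nat_lit 98) (nat_lit 12) (Sb.cons (nat_lit 0) (nat_lit 0) (nat_lit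 4) (Sb.cons (nat_lit 4) (nat_lit 4) (nat_lit 4) (Sb.cons (nat_lit 8) (nat_lit 8) (nat_lit 4) Sb.nil))) (Bl.r Y1_5_7_7 (nat_lit 7) (Bl.c Y1_5_7_7 (nat_lit 24) (nat_lit 7) Bl.nil))) Sl.nil)))))))))
noncomputable def SI1_6 : Nat := (nat_lit 0x100400c030080200802004010040000000000000000000000)
noncomputable def SW1_6 : Nat := (nat_lit 0x4001c00c00500580280080030078038004013009004402000d0060024002000)
noncomputable def RV1_6 : Nat := (nat_lit 0x8a04608a01608a03808a02e88a02008a00688a02208a00808a04108a03c08a04308a05f08a05008a05b08a05808a05408a04b08a05d982007900002)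
noncomputable def CO1_6 : Nat := (nat_lit 0x382c50380c50342c50341c50309850308850301c50300c500b24500b2050082c5003b85003b05003785003745003345003305000b85000141000140)
noncomputable def Y1_6_1_0 : Nat := (nat_lit 0xc00000400000300000100003fc00001c)
noncomputable def Y1_6_2_2 : Nat := (nat_lit 0x40000020000000000000000014000008)
noncomputable def Y1_6_3_3 : Nat := (nat_lit 0x4000000)
noncomputable def Y1_6_4_4 : Nat := (nat_lit 0x8000000000000000000)
noncomputable def C1_6 : Cd := (Cd.mk (nat_lit 20) (nat_lit 7) (nat_lit 4102) SI1_6 SW1_6 RV1_6 CO1_6 (Sl.cons (Sd.mk (nat_lit 0) (nat_lit 0) (nat_lit 0) (nat_lit 9) (Sb.cons (nat_lit 0) (nat_lit 0) (nat_lit 3) (Sb.cons (nat_lit 12) (nat_lit 3) (nat_lit 6) Sb.nil)) (Bl.c Y1_6_1_0 (nat_lit 6) (nat_lit 1) Bl.nil)) (Sl.cons (Sd.mk (nat_lit 2) (nat_lit 0) (nat_lit 9) (nat_lit 3) (Sb.cons (nat_lit 0) (nat_lit 0) (nat_lit 1) (Sb.cons (nat_lit 12) (nat_lit 1) (nat_lit 2) Sb.nil)) (Bl.r Y1_6_1_0 (nat_lit 0) Bl.nil)) (Sl.cons (Sd.mk (nat_lit 12) (nat_lit 12) (nat_lit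 12) (nat_lit 4) (Sb.cons (nat_lit 0) (nat_lit 0) (nat_lit 4) Sb.nil) (Bl.r Y1_6_2_2 (nat_lit 2) (Bl.c Y1_6_2_2 (nat_lit 8) (nat_lit 2) Bl.nil))) (Sl.cons (Sd.mk (nat_lit 13) (nat_lit 12) (nat_lit 16) (nat_lit 2) (Sb.cons (nat_lit 0) (nat_lit 0) (nat_lit 2) Sb.nil) (Bl.r Y1_6_3_3 (nat_lit 3) (Bl.c Y1_6_3_3 (nat_lit 4) (nat_lit 3) Bl.nil))) (Sl.cons (Sd.mk (nat_lit 14) (nat_lit 12) (nat_lit 18) (nat_lit 2) (Sb.cons (nat_lit 0) (nat_lit 0) (nat_lit 2) Sb.nil) (Bl.r Y1_6_4_4 (nat_lit 4) (Bl.c Y1_6_4_4 (nat_lit 4) (nat_lit 4) Bl.nil))) Sl.nil))))))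
noncomputable def CL1 : Cl := (Cl.cons C1_0 (Cl.cons C1_1 (Cl.cons C1_2 (Cl.cons C1_3 (Cl.cons C1_4 (Cl.cons C1_5 (Cl.cons C1_6 Cl.nil)))))))
noncomputable def AL1_0 : Nat := (nat_lit 0x1acb4f5)
noncomputable def A41_0 : Nat := (nat_lit 0x2cb415)
noncomputable def IX1_0 : Nat := (nat_lit 0x9000000000000000000000000080000000000007000000000000000000000000000000000000006000000000000000000000000050000000000004000000000000000000000000030000000000000000000000000000000000000000000000000000000000000000000000000000020000000000000000000000000100000000000000000000000000)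
noncomputable def OL1_0 : Nat := (nat_lit 0x2a004c009000f001a0030005000400040000)
noncomputable def AL1_1 : Nat := (nat_lit 0xa091b30a47a041)
noncomputable def A41_1 : Nat := (nat_lit 0x2090320a42a041)
noncomputable def IX1_1 : Nat := (nat_lit 0xd00000000000000000000000000000000000000000000000000000000000000000000000000000c00000000000000000000000000000000000000b000000000000000000000000000000000000000000000000000000000000000000000000000000000000000000a0000000000009000000000000000000000000000000000000008000000000000000000000000000000000000000000000000000000000000000000000000000007000000000000000000000000060000000000000000000000000000000000000050000000000000000000000000000000000000000000000000000000000000000400000000000000000000000003000000000000000000000000020000000000000000000000000000000000000000000000000000000000000000000000000000000000000000001000000000000000000000000000000000000000000000000000000000000000000000000000000)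
noncomputable def OL1_1 : Nat := (nat_lit 0x6a00bc01600250048008400d8019002c0044007800d000c0000)
noncomputable def AL1_2 : Nat := (nat_lit 0x1d7705e)
noncomputable def A41_2 : Nat := (nat_lit 0x1c7305e)
noncomputable def IX1_2 : Nat := (nat_lit 0xc000000000000b000000000000a0000000000000000000000000000000000000000000000000009000000000000800000000000070000000000000000000000000000000000000060000000000005000000000000000000000000000000000000000000000000000000000000000000000000000004000000000000000000000000030000000000002000000000000100000000000000000000000000)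
noncomputable def OL1_2 : Nat := (nat_lit 0x6000b801600240044008000d00180018002000300040004)
noncomputable def AL1_3 : Nat := (nat_lit 0x141)
noncomputable def A41_3 : Nat := (nat_lit 0x1)
noncomputable def IX1_3 : Nat := (nat_lit 0)
noncomputable def OL1_3 : Nat := (nat_lit 0)
noncomputable def AL1_4 : Nat := (nat_lit 0xf7d8c44)
noncomputable def A41_4 : Nat := (nat_lit 0x5040c04)
noncomputable def IX1_4 : Nat := (nat_lit 0x500000000000000000000000004000000000000000000000000000000000000000000000000000000000000000000000000000003000000000000000000000000000000000000000000000000000000000000000000000000000000000000000000200000000000010000000000000000000000000000000000000000000000000000000000000000000000000000000000000000000000000000000000000000000000000000000000)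
noncomputable def OL1_4 : Nat := (nat_lit 0x340060009000b00140008)
noncomputable def AL1_5 : Nat := (nat_lit 0xa8b2ccdb4000c724f0cf5d9ebfff5e7daf68a37fadc2e777fffdffe77ffffd)
noncomputable def A41_5 : Nat := (nat_lit 0xa012445b4000c72050455d8ebd39127d8048823785024537a7fda74577a7fd)
noncomputable def IX1_5 : Nat := (nat_lit 0x6d0000000000000000000000006c00000000000000000000000000000000000000000000000000000000000000000000000000000000000000000000000000000000000000000006b00000000000000000000000000000000000006a0000000000000000000000000000000000000690000000000000000000000000000000000000000000000000068000000000000000000000000000000000000000000000000006700000000000000000000000066000000000006500000000000000000000000064000000000006300000000000000000000000062000000000000000000000000000000000000000000000000000000000000000000000000000000000000000000000000000000000000000000000000000000000000000000000000000000000000000000000000000000000000000000000000061000000000006000000000000000000000000000000000000000000000000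0005f000000000005e000000000005d00000000000000000000000000000000000005c000000000000000000000000000000000000000000000000000000000000000000000000000000000000000005b0000000000000000000000005a0000000000000000000000000000000000000000000000000000000000000000000000000000590000000000000000000000000000000000000000000000000058000000000000000000000000570000000000000000000000005600000000000000000000000055000000000005400000000000530000000000000000000000005200000000000510000000000000000000000000000000000000000000000000050000000000004f000000000004e0000000000000000000000004d0000000000000000000000004c000000000004b000000000004a0000000000049000000000000000000000000480000000000000000000000000000000000000470000000000046000000000004500000000000000000000000000000000000004400000000000000000000000000000000000000000000000000430000000000000000000000000000000000000420000000000000000000000000000000000000410000000000040000000000003f000000000003e000000000003d0000000000000000000000003c000000000003b0000000000000000000000000000000000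0000000000000000000000000000000000000000000000000000000000000000000000000000000003a00000000000000000000000000000000000003900000000000000000000000000000000000000000000000000380000000000000000000000000000000000000000000000000000000000000000000000000000370000000000000000000000000000000000000000000000000036000000000003500000000000000000000000034000000000003300000000000320000000000031000000000000000000000000000000000000000000000000000000000000000300000000000000000000000002f000000000000000000000000000000000000000000000000000000000000000000000000000000000000000002e00000000000000000000000000000000000002d000000000000000000000000000000000000000000000000002c0000000000000000000000002b00000000000000000000000000000000000002a00000000000290000000000000000000000002800000000000270000000000026000000000002500000000000000000000000024000000000000000000000000000000000000023000000000002200000000000210000000000020000000000001f000000000001e000000000001d000000000001c000000000001b0000000000000000000000001a0000000000019000000000000000000000000180000000000000000000000000000000000000170000000000016000000000001500000000000000000000000014000000000000000000000000000000000000000000000000001300000000000000000000000012000000000000000000000000110000000000010000000000000f0000000000000000000000000e000000000000d000000000000c000000000000b0000000000000000000000000a0000000000000000000000000000000000000090000000000008000000000000700000000000060000000000005000000000000400000000000030000000000002000000000000100000000000000000000000000)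
noncomputable def OL1_5 : Nat := (nat_lit 0x1ee03d407600e901cc038806f00dc01b6036406c00d6018e031806100c1018002f405b00b4015c02a805400a60148028c05100a0013e026c04d0099012e025404a009301240240046808c01160220042008100fc01f403e007b00f401e003b806e00d6019c030805d00b8016802c805800ae01480280049008c0108020003d007800e801c8038006e00d40190031006000bc017002d005800ac0150028004e009401100210040007800d0018002c005400a001200220040007800d001400240040007000c0014002000300040000)
noncomputable def AL1_6 : Nat := (nat_lit 0xb7d8ca01b0def)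
noncomputable def A41_6 : Nat := (nat_lit 0x14c84a0090def)
noncomputable def IX1_6 : Nat := (nat_lit 0x1300000000000000000000000012000000000000000000000000000000000000011000000000001000000000000000000000000000000000000000f0000000000000000000000000000000000000000000000000000000000000000e00000000000000000000000000000000000000d0000000000000000000000000c000000000000000000000000000000000000000000000000000000000000000000000000000000000000000000000000000000000000000000000000000000000b00000000000000000000000000000000000000a0000000000000000000000000000000000000000000000000000000000000000900000000000080000000000000000000000000700000000000060000000000005000000000000400000000000000000000000003000000000000200000000000010000000000000)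
noncomputable def OL1_6 : Nat := (nat_lit 0x18002e005600a80138022003e00740098010001600280040007000c0014001800200020000)
noncomputable def TL1 : Tl := (Tl.cons (Tr.mk AL1_0 A41_0 IX1_0 OL1_0) (Tl.cons (Tr.mk AL1_1 A41_1 IX1_1 OL1_1) (Tl.cons (Tr.mk AL1_2 A41_2 IX1_2 OL1_2) (Tl.cons (Tr.mk AL1_3 A41_3 IX1_3 OL1_3) (Tl.cons (Tr.mk AL1_4 A41_4 IX1_4 OL1_4) (Tl.cons (Tr.mk AL1_5 A41_5 IX1_5 OL1_5) (Tl.cons (Tr.mk AL1_6 A41_6 IX1_6 OL1_6) Tl.nil)))))))
noncomputable def ZL1_0 : Zl := (Zl.cons (nat_lit 0) (nat_lit 0) (nat_lit 10) (Zl.cons (nat_lit 0) (nat_lit 0) (nat_lit 14) (Zl.cons (nat_lit 0) (nat_lit 0) (nat_lit 13) (Zl.cons (nat_lit 0) (nat_lit 0) (nat_lit 1) (Zl.cons (nat_lit 0) (nat_lit 0) (nat_lit 6) (Zl.cons (nat_lit 0) (nat_lit 0) (nat_lit 110) (Zl.cons (nat_lit 0) (nat_lit 0) (nat_lit 20) Zl.nil)))))))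
noncomputable def ZZ1 : ZZ := (ZZ.cons ZL1_0 ZZ.nil)
noncomputable def C2_0 : Cd := (Cd.mk (nat_lit 0) (nat_lit 5) (nat_lit 320) (nat_lit 0) (nat_lit 0) (nat_lit 0) (nat_lit 0) Sl.nil)
noncomputable def C2_1 : Cd := (Cd.mk (nat_lit 0) (nat_lit 6) (nat_lit 546) (nat_lit 0) (nat_lit 0) (nat_lit 0) (nat_lit 0) Sl.nil)
noncomputable def SI2_2 : Nat := (nat_lit 0x400)
noncomputable def SW2_2 : Nat := (nat_lit 0x1)
noncomputable def RV2_2 : Nat := (nat_lit 0x8a00708a019)
noncomputable def CO2_2 : Nat := (nat_lit 0x2888500aa05)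
noncomputable def C2_2 : Cd := (Cd.mk (nat_lit 2) (nat_lit 7) (nat_lit 772) SI2_2 SW2_2 RV2_2 CO2_2 (Sl.cons (Sd.mk (nat_lit 2) (nat_lit 0) (nat_lit 0) (nat_lit 1) (Sb.cons (nat_lit 8) (nat_lit 0) (nat_lit 1) Sb.nil) Bl.nil) (Sl.cons (Sd.mk (nat_lit 10) (nat_lit 8) (nat_lit 1) (nat_lit 1) (Sb.cons (nat_lit 0) (nat_lit 0) (nat_lit 1) Sb.nil) Bl.nil) Sl.nil)))
noncomputable def C2_3 : Cd := (Cd.mk (nat_lit 0) (nat_lit 8) (nat_lit 53) (nat_lit 0) (nat_lit 0) (nat_lit 0) (nat_lit 0) Sl.nil)
noncomputable def C2_4 : Cd := (Cd.mk (nat_lit 0) (nat_lit 9) (nat_lit 279) (nat_lit 0) (nat_lit 0) (nat_lit 0) (nat_lit 0) Sl.nil)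
noncomputable def SI2_5 : Nat := (nat_lit 0x1806018060180601806018050140501405014040100400c0300c020080200802008020040100401000000000000000)
noncomputable def SW2_5 : Nat := (nat_lit 0x38016009804001e00e0048014008025006802000e003001009002400c01180540020220108080036014003000003e01a00c802c03c01d00c005c02200a)
noncomputable def RV2_5 : Nat := (nat_lit 0x88a00b08a00188a00c88a01020c00108a00508a00288a00e20c00008a00620c00308a00820400020c00208a00908a01108a01208a01308a01408a01508a01608a02220c00508a01e20c00708a02308a02508a00008a01708a01a20400108a01c08a02020c00420c00608a01f08a02488a00a)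
noncomputable def CO2_5 : Nat := (nat_lit 0x329050324450315850311c50310c60310c50308850301c50300c602b0450290c60288850288820280c60280c50271050255850251c50172450166450142c5013345013306013305012b06012745010b8501004500b20500aa0500aa020092c5003345003306002b06002b05001785001105)
noncomputable def Y2_5_1_0 : Nat := (nat_lit 0x2008044000800004000)
noncomputable def Y2_5_2_3 : Nat := (nat_lit 0x800008020080000400010000080001800)
noncomputable def Y2_5_4_5 : Nat := (nat_lit 0x40000bc0102000)
noncomputable def Y2_5_6_6 : Nat := (nat_lit 0x80000000000000080000000080000000058000)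
noncomputable def C2_5 : Cd := (Cd.mk (nat_lit 38) (nat_lit 4) (nat_lit 4369) SI2_5 SW2_5 RV2_5 CO2_5 (Sl.cons (Sd.mk (nat_lit 0) (nat_lit 0) (nat_lit 0) (nat_lit 6) (Sb.cons (nat_lit 4) (nat_lit 0) (nat_lit 2) (Sb.cons (nat_lit 8) (nat_lit 2) (nat_lit 2) (Sb.cons (nat_lit 12) (nat_lit 4) (nat_lit 2) Sb.nil))) (Bl.c Y2_5_1_0 (nat_lit 8) (nat_lit 1) Bl.nil)) (Sl.cons (Sd.mk (nat_lit 2) (nat_lit 0) (nat_lit 6) (nat_lit 4) (Sb.cons (nat_lit 4) (nat_lit 0) (nat_lit 1) (Sb.cons (nat_lit 8) (nat_lit 1) (nat_lit 2) (Sb.cons (nat_lit 12) (nat_lit 3) (nat_lit 1) Sb.nil))) (Bl.r Y2_5_1_0 (nat_lit 0) Bl.nil)) (Sl.cons (Sd.mk (nat_lit 4) (nat_lit 4) (nat_lit 10) (nat_lit 7) (Sb.cons (nat_lit 0) (nat_lit 0) (nat_lit 2) (Sb.cons (nat_lit 8) (nat_lit 2) (nat_lit 2) (Sb.cons (nat_lit 12) (nat_lit 4) (nat_lit 3) Sb.nil))) (Bl.r Y2_5_2_3 (nat_lit 3) Bl.nil)) (Sl.cons (Sd.mk (nat_lit 5) (nat_lit 4) (nat_lit 17) (nat_lit 3) (Sb.cons (nat_lit 0) (nat_lit 0) (nat_lit 1) (Sb.cons (nat_lit 8) (nat_lit 1) (nat_lit 1) (Sb.cons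 (nat_lit 12) (nat_lit 2) (nat_lit 1) Sb.nil))) (Bl.c Y2_5_2_3 (nat_lit 14) (nat_lit 2) Bl.nil)) (Sl.cons (Sd.mk (nat_lit 9) (nat_lit 8) (nat_lit 20) (nat_lit 3) (Sb.cons (nat_lit 4) (nat_lit 0) (nat_lit 2) (Sb.cons (nat_lit 12) (nat_lit 2) (nat_lit 1) Sb.nil)) (Bl.r Y2_5_4_5 (nat_lit 5) Bl.nil)) (Sl.cons (Sd.mk (nat_lit 10) (nat_lit 8) (nat_lit 23) (nat_lit 6) (Sb.cons (nat_lit 0) (nat_lit 0) (nat_lit 4) (Sb.cons (nat_lit 4) (nat_lit 4) (nat_lit 1) (Sb.cons (nat_lit 12) (nat_lit 5) (nat_lit 1) Sb.nil))) (Bl.c Y2_5_4_5 (nat_lit 6) (nat_lit 4) Bl.nil)) (Sl.cons (Sd.mk (nat_lit 12) (nat_lit 12) (nat_lit 29) (nat_lit 9) (Sb.cons (nat_lit 0) (nat_lit 0) (nat_lit 3) (Sb.cons (nat_lit 4) (nat_lit 3) (nat_lit 4) (Sb.cons (nat_lit 8) (nat_lit 7) (nat_lit 2) Sb.nil))) (Bl.r Y2_5_6_6 (nat_lit 6) (Bl.c Y2_5_6_6 (nat_lit 18) (nat_lit 6) Bl.nil))) Sl.nil))))))))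
noncomputable def SI2_6 : Nat := (nat_lit 0x802008020040100000)
noncomputable def SW2_6 : Nat := (nat_lit 0x18008002000003801800a004)
noncomputable def RV2_6 : Nat := (nat_lit 0x88a00d08a00388a00f08a00408a01b08a01808a02108a01d)
noncomputable def CO2_6 : Nat := (nat_lit 0x309850308850301c50300c500b24500b205003345003305)
noncomputable def Y2_6_2_2 : Nat := (nat_lit 0x8020000002000)
noncomputable def C2_6 : Cd := (Cd.mk (nat_lit 8) (nat_lit 7) (nat_lit 4102) SI2_6 SW2_6 RV2_6 CO2_6 (Sl.cons (Sd.mk (nat_lit 0) (nat_lit 0) (nat_lit 0) (nat_lit 2) (Sb.cons (nat_lit 12) (nat_lit 0) (nat_lit 2) Sb.nil) Bl.nil) (Sl.cons (Sd.mk (nat_lit 2) (nat_lit 0) (nat_lit 2) (nat_lit 2) (Sb.cons (nat_lit 12) (nat_lit 0) (nat_lit 2) Sb.nil) Bl.nil) (Sl.cons (Sd.mk (nat_lit 12) (nat_lit 12) (nat_lit 4) (nat_lit 4) (Sb.cons (nat_lit 0) (nat_lit 0) (nat_lit 4) Sb.nil) (Bl.r Y2_6_2_2 (nat_lit 2) (Bl.c Y2_6_2_2 (nat_lit 8) (nat_lit 2) Bl.nil))) Sl.nil))))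
noncomputable def CL2 : Cl := (Cl.cons C2_0 (Cl.cons C2_1 (Cl.cons C2_2 (Cl.cons C2_3 (Cl.cons C2_4 (Cl.cons C2_5 (Cl.cons C2_6 Cl.nil)))))))
noncomputable def AL2_0 : Nat := (nat_lit 0)
noncomputable def A42_0 : Nat := (nat_lit 0)
noncomputable def IX2_0 : Nat := (nat_lit 0)
noncomputable def OL2_0 : Nat := (nat_lit 0)
noncomputable def AL2_1 : Nat := (nat_lit 0)
noncomputable def A42_1 : Nat := (nat_lit 0)
noncomputable def IX2_1 : Nat := (nat_lit 0)
noncomputable def OL2_1 : Nat := (nat_lit 0)
noncomputable def AL2_2 : Nat := (nat_lit 0xfff)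
noncomputable def A42_2 : Nat := (nat_lit 0x420)
noncomputable def IX2_2 : Nat := (nat_lit 0x10000000000000000000000000000000000000000000000000000000000000000000000000000000000000000000000000000000000000000000000000000000000)
noncomputable def OL2_2 : Nat := (nat_lit 0x140014)
noncomputable def AL2_3 : Nat := (nat_lit 0)
noncomputable def A42_3 : Nat := (nat_lit 0)
noncomputable def IX2_3 : Nat := (nat_lit 0)
noncomputable def OL2_3 : Nat := (nat_lit 0)
noncomputable def AL2_4 : Nat := (nat_lit 0)
noncomputable def A42_4 : Nat := (nat_lit 0)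
noncomputable def IX2_4 : Nat := (nat_lit 0)
noncomputable def OL2_4 : Nat := (nat_lit 0)
noncomputable def AL2_5 : Nat := (nat_lit 0x18e3fd852b9c824cf78fab36e)
noncomputable def A42_5 : Nat := (nat_lit 0x106385812b8c8244f700a936c)
noncomputable def IX2_5 : Nat := (nat_lit 0x2500000000000000000000000000000000000000000000000000000000000000000000000000002400000000000230000000000000000000000000000000000000000000000000022000000000002100000000000200000000000000000000000000000000000000000000000000000000000000001f0000000000000000000000001e000000000001d000000000000000000000000000000000000000000000000000000000000000000000000000000000000000001c00000000000000000000000000000000000001b0000000000000000000000001a000000000000000000000000190000000000018000000000001700000000000000000000000000000000000000000000000000160000000000015000000000000000000000000000000000000014000000000000000000000000000000000000000000000000000000000000000000000000000013000000000000000000000000000000000000012000000000000000000000000000000000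0000000000000000011000000000000000000000000000000000000010000000000000f000000000000e000000000000d0000000000000000000000000c000000000000b000000000000a0000000000000000000000000000000000000000000000000000000000000000000000000000000000000000000000000000000000000000000090000000000000000000000000800000000000000000000000007000000000000000000000000000000000000006000000000000000000000000000000000000005000000000000400000000000000000000000003000000000000200000000000000000000000001000000000000000000000000000000000000000)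
noncomputable def OL2_5 : Nat := (nat_lit 0xc0016802c805500a8014c027004c00960110020803f007a00f001d8037006c00cc016802a004c008c01100210040007800e801c00260044007800c00120020003000500060008)
noncomputable def AL2_6 : Nat := (nat_lit 0xfe1c)
noncomputable def A42_6 : Nat := (nat_lit 0xfc18)
noncomputable def IX2_6 : Nat := (nat_lit 0x7000000000000600000000000050000000000004000000000000300000000000020000000000000000000000000000000000000000000000000000000000000000000000000000010000000000000000000000000000000000000000000000000000)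
noncomputable def OL2_6 : Nat := (nat_lit 0x7800e001a0030005800a0008000c)
noncomputable def TL2 : Tl := (Tl.cons (Tr.mk AL2_0 A42_0 IX2_0 OL2_0) (Tl.cons (Tr.mk AL2_1 A42_1 IX2_1 OL2_1) (Tl.cons (Tr.mk AL2_2 A42_2 IX2_2 OL2_2) (Tl.cons (Tr.mk AL2_3 A42_3 IX2_3 OL2_3) (Tl.cons (Tr.mk AL2_4 A42_4 IX2_4 OL2_4) (Tl.cons (Tr.mk AL2_5 A42_5 IX2_5 OL2_5) (Tl.cons (Tr.mk AL2_6 A42_6 IX2_6 OL2_6) Tl.nil)))))))
noncomputable def ZL2_0 : Zl := (Zl.cons (nat_lit 0) (nat_lit 0) (nat_lit 0) (Zl.cons (nat_lit 0) (nat_lit 0) (nat_lit 0) (Zl.cons (nat_lit 0) (nat_lit 0) (nat_lit 0) (Zl.cons (nat_lit 0) (nat_lit 0) (nat_lit 0) (Zl.cons (nat_lit 0) (nat_lit 0) (nat_lit 0) (Zl.cons (nat_lit 10) (nat_lit 0) (nat_lit 7) (Zl.cons (nat_lit 0) (nat_lit 0) (nat_lit 0) Zl.nil)))))))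
noncomputable def ZZ2 : ZZ := (ZZ.cons ZL2_0 ZZ.nil)
noncomputable def C3_0 : Cd := (Cd.mk (nat_lit 0) (nat_lit 5) (nat_lit 320) (nat_lit 0) (nat_lit 0) (nat_lit 0) (nat_lit 0) Sl.nil)
noncomputable def C3_1 : Cd := (Cd.mk (nat_lit 0) (nat_lit 6) (nat_lit 546) (nat_lit 0) (nat_lit 0) (nat_lit 0) (nat_lit 0) Sl.nil)
noncomputable def C3_2 : Cd := (Cd.mk (nat_lit 0) (nat_lit 7) (nat_lit 772) (nat_lit 0) (nat_lit 0) (nat_lit 0) (nat_lit 0) Sl.nil)
noncomputable def C3_3 : Cd := (Cd.mk (nat_lit 0) (nat_lit 8) (nat_lit 53) (nat_lit 0) (nat_lit 0) (nat_lit 0) (nat_lit 0) Sl.nil)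
noncomputable def C3_4 : Cd := (Cd.mk (nat_lit 0) (nat_lit 9) (nat_lit 279) (nat_lit 0) (nat_lit 0) (nat_lit 0) (nat_lit 0) Sl.nil)
noncomputable def SI3_5 : Nat := (nat_lit 0x400)
noncomputable def SW3_5 : Nat := (nat_lit 0x1)
noncomputable def RV3_5 : Nat := (nat_lit 0x8a00008a001)
noncomputable def CO3_5 : Nat := (nat_lit 0x25585016645)
noncomputable def C3_5 : Cd := (Cd.mk (nat_lit 2) (nat_lit 4) (nat_lit 4369) SI3_5 SW3_5 RV3_5 CO3_5 (Sl.cons (Sd.mk (nat_lit 5) (nat_lit 4) (nat_lit 0) (nat_lit 1) (Sb.cons (nat_lit 8) (nat_lit 0) (nat_lit 1) Sb.nil) Bl.nil) (Sl.cons (Sd.mk (nat_lit 9) (nat_lit 8) (nat_lit 1) (nat_lit 1) (Sb.cons (nat_lit 4) (nat_lit 0) (nat_lit 1) Sb.nil) Bl.nil) Sl.nil)))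
noncomputable def C3_6 : Cd := (Cd.mk (nat_lit 0) (nat_lit 7) (nat_lit 4102) (nat_lit 0) (nat_lit 0) (nat_lit 0) (nat_lit 0) Sl.nil)
noncomputable def CL3 : Cl := (Cl.cons C3_0 (Cl.cons C3_1 (Cl.cons C3_2 (Cl.cons C3_3 (Cl.cons C3_4 (Cl.cons C3_5 (Cl.cons C3_6 Cl.nil)))))))
noncomputable def AL3_0 : Nat := (nat_lit 0)
noncomputable def A43_0 : Nat := (nat_lit 0)
noncomputable def IX3_0 : Nat := (nat_lit 0)
noncomputable def OL3_0 : Nat := (nat_lit 0)
noncomputable def AL3_1 : Nat := (nat_lit 0)
noncomputable def A43_1 : Nat := (nat_lit 0)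
noncomputable def IX3_1 : Nat := (nat_lit 0)
noncomputable def OL3_1 : Nat := (nat_lit 0)
noncomputable def AL3_2 : Nat := (nat_lit 0)
noncomputable def A43_2 : Nat := (nat_lit 0)
noncomputable def IX3_2 : Nat := (nat_lit 0)
noncomputable def OL3_2 : Nat := (nat_lit 0)
noncomputable def AL3_3 : Nat := (nat_lit 0)
noncomputable def A43_3 : Nat := (nat_lit 0)
noncomputable def IX3_3 : Nat := (nat_lit 0)
noncomputable def OL3_3 : Nat := (nat_lit 0)
noncomputable def AL3_4 : Nat := (nat_lit 0)
noncomputable def A43_4 : Nat := (nat_lit 0)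
noncomputable def IX3_4 : Nat := (nat_lit 0)
noncomputable def OL3_4 : Nat := (nat_lit 0)
noncomputable def AL3_5 : Nat := (nat_lit 0xa48208)
noncomputable def A43_5 : Nat := (nat_lit 0x240000)
noncomputable def IX3_5 : Nat := (nat_lit 0x1000000000000000000000000000000000000000000000000000000000000000000000000000000000000000000000000000000000000000000000000000000000000000000000000000000000000000000000000000000000000000000000000000000000000000000000000000000000000000000000000000000000000000000000000000000000)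
noncomputable def OL3_5 : Nat := (nat_lit 0x2a0048)
noncomputable def AL3_6 : Nat := (nat_lit 0x60)
noncomputable def A43_6 : Nat := (nat_lit 0)
noncomputable def IX3_6 : Nat := (nat_lit 0)
noncomputable def OL3_6 : Nat := (nat_lit 0)
noncomputable def TL3 : Tl := (Tl.cons (Tr.mk AL3_0 A43_0 IX3_0 OL3_0) (Tl.cons (Tr.mk AL3_1 A43_1 IX3_1 OL3_1) (Tl.cons (Tr.mk AL3_2 A43_2 IX3_2 OL3_2) (Tl.cons (Tr.mk AL3_3 A43_3 IX3_3 OL3_3) (Tl.cons (Tr.mk AL3_4 A43_4 IX3_4 OL3_4) (Tl.cons (Tr.mk AL3_5 A43_5 IX3_5 OL3_5) (Tl.cons (Tr.mk AL3_6 A43_6 IX3_6 OL3_6) Tl.nil)))))))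
def wf0_0 : wfC (nat_lit 56) (nat_lit 2) C0_0 = true := by decide +kernel
def pl0_0 : plCk (nat_lit 56) (nat_lit 2) (nat_lit 11) (nat_lit 0) (nat_lit 0) (nat_lit 7) (nat_lit 7) (nat_lit 4) (nat_lit 0) nl0 CL0 = true := by decide +kernel
def wf0_1 : wfC (nat_lit 56) (nat_lit 2) C0_1 = true := by decide +kernel
def pl0_1 : plCk (nat_lit 56) (nat_lit 2) (nat_lit 11) (nat_lit 0) (nat_lit 0) (nat_lit 7) (nat_lit 7) (nat_lit 4) (nat_lit 1) nl0 CL0 = true := by decide +kernel
def wf0_2 : wfC (nat_lit 56) (nat_lit 2) C0_2 = true := by decide +kernel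
def pl0_2 : plCk (nat_lit 56) (nat_lit 2) (nat_lit 11) (nat_lit 0) (nat_lit 0) (nat_lit 7) (nat_lit 7) (nat_lit 4) (nat_lit 2) nl0 CL0 = true := by decide +kernel
def wf0_3 : wfC (nat_lit 56) (nat_lit 2) C0_3 = true := by decide +kernel
def pl0_3 : plCk (nat_lit 56) (nat_lit 2) (nat_lit 11) (nat_lit 0) (nat_lit 0) (nat_lit 7) (nat_lit 7) (nat_lit 4) (nat_lit 3) nl0 CL0 = true := by decide +kernel
def wf0_4 : wfC (nat_lit 56) (nat_lit 2) C0_4 = true := by decide +kernel
def pl0_4 : plCk (nat_lit 56) (nat_lit 2) (nat_lit 11) (nat_lit 0) (nat_lit 0) (nat_lit 7) (nat_lit 7) (nat_lit 4) (nat_lit 4) nl0 CL0 = true := by decide +kernel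
def wf0_5 : wfC (nat_lit 56) (nat_lit 2) C0_5 = true := by decide +kernel
def pl0_5 : plCk (nat_lit 56) (nat_lit 2) (nat_lit 11) (nat_lit 0) (nat_lit 0) (nat_lit 7) (nat_lit 7) (nat_lit 4) (nat_lit 5) nl0 CL0 = true := by decide +kernel
def wf0_6 : wfC (nat_lit 56) (nat_lit 2) C0_6 = true := by decide +kernel
def pl0_6 : plCk (nat_lit 56) (nat_lit 2) (nat_lit 11) (nat_lit 0) (nat_lit 0) (nat_lit 7) (nat_lit 7) (nat_lit 4) (nat_lit 6) nl0 CL0 = true := by decide +kernel
def ti0_0 : tileCk (nat_lit 56) (nat_lit 2) (nat_lit 1) (nat_lit 1) (nat_lit 46) (nat_lit 11) (nat_lit 7) ZL0_0 CL0 = true := by decide +kernel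
def zl0_0 : zlOK (nat_lit 46) ZL0_0 = true := by decide +kernel
def tc0_0 : tiCov (nat_lit 1) (nat_lit 0) ZZ0 C0_0 = true := by decide +kernel
def tc0_1 : tiCov (nat_lit 1) (nat_lit 1) ZZ0 C0_1 = true := by decide +kernel
def tc0_2 : tiCov (nat_lit 1) (nat_lit 2) ZZ0 C0_2 = true := by decide +kernel
def tc0_3 : tiCov (nat_lit 1) (nat_lit 3) ZZ0 C0_3 = true := by decide +kernel
def tc0_4 : tiCov (nat_lit 1) (nat_lit 4) ZZ0 C0_4 = true := by decide +kernel
def tc0_5 : tiCov (nat_lit 1) (nat_lit 5) ZZ0 C0_5 = true := by decide +kernel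
def tc0_6 : tiCov (nat_lit 1) (nat_lit 6) ZZ0 C0_6 = true := by decide +kernel
def wf1_0 : wfC (nat_lit 25) (nat_lit 2) C1_0 = true := by decide +kernel
def rf1_0 : rfCk (nat_lit 56) (nat_lit 2) (nat_lit 25) (nat_lit 2) (nat_lit 9) (nat_lit 0) (nat_lit 0) TL1 CL0 CL1 = true := by decide +kernel
def st1_0_0 : starCk (nat_lit 25) (nat_lit 2) (nat_lit 1) (nat_lit 1) (nat_lit 3) (nat_lit 7) (nat_lit 256) C1_0 = true := by decide +kernel
def sc1_0 : stCov (nat_lit 2) (nat_lit 7) (Rl.cons (nat_lit 7) (nat_lit 3) Rl.nil) C1_0 = true := by decide +kernel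
def wf1_1 : wfC (nat_lit 25) (nat_lit 2) C1_1 = true := by decide +kernel
def rf1_1 : rfCk (nat_lit 56) (nat_lit 2) (nat_lit 25) (nat_lit 2) (nat_lit 9) (nat_lit 0) (nat_lit 1) TL1 CL0 CL1 = true := by decide +kernel
def st1_1_0 : starCk (nat_lit 25) (nat_lit 2) (nat_lit 1) (nat_lit 1) (nat_lit 2) (nat_lit 11) (nat_lit 256) C1_1 = true := by decide +kernel
def sc1_1 : stCov (nat_lit 2) (nat_lit 11) (Rl.cons (nat_lit 11) (nat_lit 2) Rl.nil) C1_1 = true := by decide +kernel
def wf1_2 : wfC (nat_lit 25) (nat_lit 2) C1_2 = true := by decide +kernel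
def rf1_2 : rfCk (nat_lit 56) (nat_lit 2) (nat_lit 25) (nat_lit 2) (nat_lit 9) (nat_lit 0) (nat_lit 2) TL1 CL0 CL1 = true := by decide +kernel
def st1_2_0 : starCk (nat_lit 25) (nat_lit 2) (nat_lit 1) (nat_lit 1) (nat_lit 2) (nat_lit 4) (nat_lit 1) C1_2 = true := by decide +kernel
def sc1_2 : stCov (nat_lit 0) (nat_lit 4) (Rl.cons (nat_lit 4) (nat_lit 2) Rl.nil) C1_2 = true := by decide +kernel
def wf1_3 : wfC (nat_lit 25) (nat_lit 2) C1_3 = true := by decide +kernel
def rf1_3 : rfCk (nat_lit 56) (nat_lit 2) (nat_lit 25) (nat_lit 2) (nat_lit 9) (nat_lit 0) (nat_lit 3) TL1 CL0 CL1 = true := by decide +kernel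
def sc1_3 : stCov (nat_lit 0) (nat_lit 0) Rl.nil C1_3 = true := by decide +kernel
def wf1_4 : wfC (nat_lit 25) (nat_lit 2) C1_4 = true := by decide +kernel
def rf1_4 : rfCk (nat_lit 56) (nat_lit 2) (nat_lit 25) (nat_lit 2) (nat_lit 9) (nat_lit 0) (nat_lit 4) TL1 CL0 CL1 = true := by decide +kernel
def st1_4_0 : starCk (nat_lit 25) (nat_lit 2) (nat_lit 1) (nat_lit 1) (nat_lit 1) (nat_lit 2) (nat_lit 16) C1_4 = true := by decide +kernel
def sc1_4 : stCov (nat_lit 1) (nat_lit 2) (Rl.cons (nat_lit 2) (nat_lit 1) Rl.nil) C1_4 = true := by decide +kernel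
def wf1_5 : wfC (nat_lit 25) (nat_lit 2) C1_5 = true := by decide +kernel
def rf1_5 : rfCk (nat_lit 56) (nat_lit 2) (nat_lit 25) (nat_lit 2) (nat_lit 9) (nat_lit 0) (nat_lit 5) TL1 CL0 CL1 = true := by decide +kernel
def st1_5_0 : starCk (nat_lit 25) (nat_lit 2) (nat_lit 1) (nat_lit 1) (nat_lit 10) (nat_lit 49) (nat_lit 256) C1_5 = true := by decide +kernel
def sc1_5 : stCov (nat_lit 2) (nat_lit 49) (Rl.cons (nat_lit 49) (nat_lit 10) Rl.nil) C1_5 = true := by decide +kernel
def wf1_6 : wfC (nat_lit 25) (nat_lit 2) C1_6 = true := by decide +kernel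
def rf1_6 : rfCk (nat_lit 56) (nat_lit 2) (nat_lit 25) (nat_lit 2) (nat_lit 9) (nat_lit 0) (nat_lit 6) TL1 CL0 CL1 = true := by decide +kernel
def st1_6_0 : starCk (nat_lit 25) (nat_lit 2) (nat_lit 1) (nat_lit 1) (nat_lit 8) (nat_lit 12) (nat_lit 4096) C1_6 = true := by decide +kernel
def sc1_6 : stCov (nat_lit 3) (nat_lit 12) (Rl.cons (nat_lit 12) (nat_lit 8) Rl.nil) C1_6 = true := by decide +kernel
def wf2_2 : wfC (nat_lit 10) (nat_lit 2) C2_2 = true := by decide +kernel
def rf2_2 : rfCk (nat_lit 25) (nat_lit 2) (nat_lit 10) (nat_lit 2) (nat_lit 9) (nat_lit 0) (nat_lit 2) TL2 CL1 CL2 = true := by decide +kernel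
def wf2_5 : wfC (nat_lit 10) (nat_lit 2) C2_5 = true := by decide +kernel
def rf2_5 : rfCk (nat_lit 25) (nat_lit 2) (nat_lit 10) (nat_lit 2) (nat_lit 9) (nat_lit 0) (nat_lit 5) TL2 CL1 CL2 = true := by decide +kernel
def wf2_6 : wfC (nat_lit 10) (nat_lit 2) C2_6 = true := by decide +kernel
def rf2_6 : rfCk (nat_lit 25) (nat_lit 2) (nat_lit 10) (nat_lit 2) (nat_lit 9) (nat_lit 0) (nat_lit 6) TL2 CL1 CL2 = true := by decide +kernel
def ti2_0 : tileCk (nat_lit 10) (nat_lit 2) (nat_lit 1) (nat_lit 1) (nat_lit 7) (nat_lit 11) (nat_lit 7) ZL2_0 CL2 = true := by decide +kernel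
def zl2_0 : zlOK (nat_lit 7) ZL2_0 = true := by decide +kernel
def tc2_2 : tiCov (nat_lit 1) (nat_lit 2) ZZ2 C2_2 = true := by decide +kernel
def tc2_5 : tiCov (nat_lit 1) (nat_lit 5) ZZ2 C2_5 = true := by decide +kernel
def tc2_6 : tiCov (nat_lit 1) (nat_lit 6) ZZ2 C2_6 = true := by decide +kernel
def wf3_5 : wfC (nat_lit 2) (nat_lit 1) C3_5 = true := by decide +kernel
def rf3_5 : rfCk (nat_lit 10) (nat_lit 2) (nat_lit 2) (nat_lit 1) (nat_lit 9) (nat_lit 0) (nat_lit 5) TL3 CL2 CL3 = true := by decide +kernel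
def de3_5 : deadCk (nat_lit 2) (nat_lit 1) C3_5 = true := by decide +kernel
def sc0_0 : stCov (nat_lit 1) (nat_lit 0) (Rl.cons (nat_lit 0) (nat_lit 25) Rl.nil) C0_0 = true := by decide +kernel
def sc0_1 : stCov (nat_lit 0) (nat_lit 0) (Rl.cons (nat_lit 0) (nat_lit 64) Rl.nil) C0_1 = true := by decide +kernel
def sc0_2 : stCov (nat_lit 0) (nat_lit 0) (Rl.cons (nat_lit 0) (nat_lit 27) Rl.nil) C0_2 = true := by decide +kernel
def sc0_3 : stCov (nat_lit 0) (nat_lit 0) (Rl.cons (nat_lit 0) (nat_lit 19) Rl.nil) C0_3 = true := by decide +kernel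
def sc0_4 : stCov (nat_lit 0) (nat_lit 0) (Rl.cons (nat_lit 0) (nat_lit 29) Rl.nil) C0_4 = true := by decide +kernel
def sc0_5 : stCov (nat_lit 0) (nat_lit 0) (Rl.cons (nat_lit 0) (nat_lit 248) Rl.nil) C0_5 = true := by decide +kernel
def sc0_6 : stCov (nat_lit 0) (nat_lit 0) (Rl.cons (nat_lit 0) (nat_lit 52) Rl.nil) C0_6 = true := by decide +kernel
def zl1_0 : zlOK (nat_lit 110) ZL1_0 = true := by decide +kernel
def tc1_0 : tiCov (nat_lit 1) (nat_lit 0) ZZ1 C1_0 = true := by decide +kernel
def tc1_1 : tiCov (nat_lit 1) (nat_lit 1) ZZ1 C1_1 = true := by decide +kernel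
def tc1_2 : tiCov (nat_lit 1) (nat_lit 2) ZZ1 C1_2 = true := by decide +kernel
def tc1_3 : tiCov (nat_lit 1) (nat_lit 3) ZZ1 C1_3 = true := by decide +kernel
def tc1_4 : tiCov (nat_lit 1) (nat_lit 4) ZZ1 C1_4 = true := by decide +kernel
def tc1_5 : tiCov (nat_lit 1) (nat_lit 5) ZZ1 C1_5 = true := by decide +kernel
def tc1_6 : tiCov (nat_lit 1) (nat_lit 6) ZZ1 C1_6 = true := by decide +kernel
def wf2_0 : wfC (nat_lit 10) (nat_lit 2) C2_0 = true := by decide +kernel
def wf2_1 : wfC (nat_lit 10) (nat_lit 2) C2_1 = true := by decide +kernel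
def wf2_3 : wfC (nat_lit 10) (nat_lit 2) C2_3 = true := by decide +kernel
def wf2_4 : wfC (nat_lit 10) (nat_lit 2) C2_4 = true := by decide +kernel
def rf2_0 : rfCk (nat_lit 25) (nat_lit 2) (nat_lit 10) (nat_lit 2) (nat_lit 9) (nat_lit 0) (nat_lit 0) TL2 CL1 CL2 = true := by decide +kernel
def rf2_1 : rfCk (nat_lit 25) (nat_lit 2) (nat_lit 10) (nat_lit 2) (nat_lit 9) (nat_lit 0) (nat_lit 1) TL2 CL1 CL2 = true := by decide +kernel
def rf2_3 : rfCk (nat_lit 25) (nat_lit 2) (nat_lit 10) (nat_lit 2) (nat_lit 9) (nat_lit 0) (nat_lit 3) TL2 CL1 CL2 = true := by decide +kernel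
def rf2_4 : rfCk (nat_lit 25) (nat_lit 2) (nat_lit 10) (nat_lit 2) (nat_lit 9) (nat_lit 0) (nat_lit 4) TL2 CL1 CL2 = true := by decide +kernel
def sc2_0 : stCov (nat_lit 1) (nat_lit 0) Rl.nil C2_0 = true := by decide +kernel
def sc2_1 : stCov (nat_lit 0) (nat_lit 0) Rl.nil C2_1 = true := by decide +kernel
def sc2_2 : stCov (nat_lit 0) (nat_lit 0) (Rl.cons (nat_lit 0) (nat_lit 2) Rl.nil) C2_2 = true := by decide +kernel
def sc2_3 : stCov (nat_lit 0) (nat_lit 0) Rl.nil C2_3 = true := by decide +kernel
def sc2_4 : stCov (nat_lit 0) (nat_lit 0) Rl.nil C2_4 = true := by decide +kernel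
def sc2_5 : stCov (nat_lit 0) (nat_lit 0) (Rl.cons (nat_lit 0) (nat_lit 38) Rl.nil) C2_5 = true := by decide +kernel
def sc2_6 : stCov (nat_lit 0) (nat_lit 0) (Rl.cons (nat_lit 0) (nat_lit 8) Rl.nil) C2_6 = true := by decide +kernel
def tc2_0 : tiCov (nat_lit 1) (nat_lit 0) ZZ2 C2_0 = true := by decide +kernel
def tc2_1 : tiCov (nat_lit 1) (nat_lit 1) ZZ2 C2_1 = true := by decide +kernel
def tc2_3 : tiCov (nat_lit 1) (nat_lit 3) ZZ2 C2_3 = true := by decide +kernel
def tc2_4 : tiCov (nat_lit 1) (nat_lit 4) ZZ2 C2_4 = true := by decide +kernel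
def wf3_0 : wfC (nat_lit 2) (nat_lit 1) C3_0 = true := by decide +kernel
def wf3_1 : wfC (nat_lit 2) (nat_lit 1) C3_1 = true := by decide +kernel
def wf3_2 : wfC (nat_lit 2) (nat_lit 1) C3_2 = true := by decide +kernel
def wf3_3 : wfC (nat_lit 2) (nat_lit 1) C3_3 = true := by decide +kernel
def wf3_4 : wfC (nat_lit 2) (nat_lit 1) C3_4 = true := by decide +kernel
def wf3_6 : wfC (nat_lit 2) (nat_lit 1) C3_6 = true := by decide +kernel
def rf3_0 : rfCk (nat_lit 10) (nat_lit 2) (nat_lit 2) (nat_lit 1) (nat_lit 9) (nat_lit 0) (nat_lit 0) TL3 CL2 CL3 = true := by decide +kernel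
def rf3_1 : rfCk (nat_lit 10) (nat_lit 2) (nat_lit 2) (nat_lit 1) (nat_lit 9) (nat_lit 0) (nat_lit 1) TL3 CL2 CL3 = true := by decide +kernel
def rf3_2 : rfCk (nat_lit 10) (nat_lit 2) (nat_lit 2) (nat_lit 1) (nat_lit 9) (nat_lit 0) (nat_lit 2) TL3 CL2 CL3 = true := by decide +kernel
def rf3_3 : rfCk (nat_lit 10) (nat_lit 2) (nat_lit 2) (nat_lit 1) (nat_lit 9) (nat_lit 0) (nat_lit 3) TL3 CL2 CL3 = true := by decide +kernel
def rf3_4 : rfCk (nat_lit 10) (nat_lit 2) (nat_lit 2) (nat_lit 1) (nat_lit 9) (nat_lit 0) (nat_lit 4) TL3 CL2 CL3 = true := by decide +kernel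
def rf3_6 : rfCk (nat_lit 10) (nat_lit 2) (nat_lit 2) (nat_lit 1) (nat_lit 9) (nat_lit 0) (nat_lit 6) TL3 CL2 CL3 = true := by decide +kernel
def de3_0 : deadCk (nat_lit 2) (nat_lit 1) C3_0 = true := by decide +kernel
def de3_1 : deadCk (nat_lit 2) (nat_lit 1) C3_1 = true := by decide +kernel
def de3_2 : deadCk (nat_lit 2) (nat_lit 1) C3_2 = true := by decide +kernel
def de3_3 : deadCk (nat_lit 2) (nat_lit 1) C3_3 = true := by decide +kernel
def de3_4 : deadCk (nat_lit 2) (nat_lit 1) C3_4 = true := by decide +kernel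
def de3_6 : deadCk (nat_lit 2) (nat_lit 1) C3_6 = true := by decide +kernel

end Pool.Agent.NNr.R11_3_7_8
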